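import Mathlib
import Pool.Agent.Helper23K9.LR.Main

set_option autoImplicit false
set_option linter.unusedSectionVars false
set_option linter.unusedVariables false

open MeasureTheory Set Filter Topology

namespace Pool.Agent.K9h46.LO

open Pool.Agent.Helper23K9.LR

/-- `f` is Lipschitz. -/
def IsLip {M : Type*} [PseudoMetricSpace M] (f : M → ℝ) : Prop := ∃ K, 0 ≤ K ∧ LK K f

section basic
variable {M : Type*} [PseudoMetricSpace M] {f g : M → ℝ}

lemma LK.isLip {K : ℝ} (h : LK K f) : IsLip f := ⟨max K 0, le_max_right _ _, h.mono (le_max_left _ _)⟩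

lemma IsLip.lin (hf : IsLip f) (hg : IsLip g) (a b : ℝ) : IsLip (fun x => a * f x + b * g x) := by
  obtain ⟨K, -, hK⟩ := hf
  obtain ⟨L, -, hL⟩ := hg
  exact LK.isLip ((hK.const_mul a).add (hL.const_mul b))

lemma IsLip.const_mul (hf : IsLip f) (a : ℝ) : IsLip (fun x => a * f x) := by
  have := hf.lin hf a 0
  simpa using this

lemma IsLip.add (hf : IsLip f) (hg : IsLip g) : IsLip (fun x => f x + g x) := by
  have := hf.lin hg 1 1
  simpa using this

lemma IsLip.sub (hf : IsLip f) (hg : IsLip g) : IsLip (fun x => f x - g x) := by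
  have := hf.lin hg 1 (-1)
  simpa [sub_eq_add_neg] using this

lemma isLip_const (c : ℝ) : IsLip (fun _ : M => c) := ⟨0, le_rfl, fun x y => by simp⟩

lemma IsLip.sum {ι : Type*} (s : Finset ι) {F : ι → M → ℝ} (h : ∀ i, IsLip (F i)) :
    IsLip (fun x => ∑ i ∈ s, F i x) := by
  classical
  induction s using Finset.induction_on with
  | empty => simpa using isLip_const (M := M) 0
  | insert a s ha ih =>
    simp only [Finset.sum_insert ha]
    exact (h a).add ih

lemma LK.sub {K L : ℝ} (hf : LK K f) (hg : LK L g) : LK (K + L) (fun x => f x - g x) := by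
  have := hf.add hg.neg
  simpa [sub_eq_add_neg] using this

end basic

section op
variable {M : Type*} [PseudoMetricSpace M] (o : M)

/-- the pull-back of a function by `T`, normalised at `o` -/
noncomputable def UT (T : FreeSpace M ≃ₗᵢ[ℝ] FreeSpace M) (f : M → ℝ) : M → ℝ := fun z => fn f (T (mol z o))

variable (T : FreeSpace M ≃ₗᵢ[ℝ] FreeSpace M)

lemma UT_diff (f : M → ℝ) (p q : M) : UT o T f p - UT o T f q = fn f (T (mol p q)) := by
  unfold UT
  rw [← map_sub, ← map_sub, mol_sub]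

lemma UT_LK {f : M → ℝ} {K : ℝ} (h : LK K f) : LK K (UT o T f) := by
  intro p q
  rw [UT_diff]
  have h2 := fn_le h (T (mol p q))
  rw [T.norm_map, norm_mol] at h2
  exact (le_abs_self _).trans h2

lemma UT_isLip {f : M → ℝ} (h : IsLip f) : IsLip (UT o T f) := by
  obtain ⟨K, h0, hK⟩ := h
  exact ⟨K, h0, UT_LK o T hK⟩

lemma UT_zero (f : M → ℝ) : UT o T f o = 0 := by
  have := UT_diff o T f o o
  have h0 : mol o o = (0 : FreeSpace M) := by
    have h1 := mol_sub (M := M) o o o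
    rw [sub_self] at h1
    exact h1.symm
  unfold UT
  rw [h0, map_zero, map_zero]

lemma UT_lin {f g : M → ℝ} (hf : IsLip f) (hg : IsLip g) (a b : ℝ) (z : M) :
    UT o T (fun x => a * f x + b * g x) z = a * UT o T f z + b * UT o T g z := by
  obtain ⟨K, -, hK⟩ := hf
  obtain ⟨L, -, hL⟩ := hg
  exact fn_lin hK hL a b _

lemma UT_sub {f g : M → ℝ} (hf : IsLip f) (hg : IsLip g) (z : M) :
    UT o T (fun x => f x - g x) z = UT o T f z - UT o T g z := by
  have := UT_lin o T hf hg 1 (-1) z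
  simpa [sub_eq_add_neg] using this

lemma UT_add {f g : M → ℝ} (hf : IsLip f) (hg : IsLip g) (z : M) :
    UT o T (fun x => f x + g x) z = UT o T f z + UT o T g z := by
  have := UT_lin o T hf hg 1 1 z
  simpa [sub_eq_add_neg] using this

lemma UT_smul {f : M → ℝ} (hf : IsLip f) (a : ℝ) (z : M) :
    UT o T (fun x => a * f x) z = a * UT o T f z := by
  have := UT_lin o T hf hf a 0 z
  simpa [sub_eq_add_neg] using this

lemma UT_sum {ι : Type*} (s : Finset ι) {F : ι → M → ℝ} (h : ∀ i, IsLip (F i)) (z : M) :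
    UT o T (fun x => ∑ i ∈ s, F i x) z = ∑ i ∈ s, UT o T (F i) z := by
  classical
  induction s using Finset.induction_on with
  | empty =>
    simp only [Finset.sum_empty]
    have := UT_smul o T (isLip_const (M := M) 0) 0 z
    simpa using this
  | insert a s ha ih =>
    simp only [Finset.sum_insert ha]
    rw [UT_add o T (h a) (IsLip.sum s h), ih]

lemma UT_congr {f g : M → ℝ} (hf : IsLip f) (hg : IsLip g) (h : ∀ x y, f x - f y = g x - g y) :
    UT o T f = UT o T g := by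
  obtain ⟨K, -, hK⟩ := hf
  obtain ⟨L, -, hL⟩ := hg
  unfold UT
  rw [fn_congr hK hL h]

lemma fn_UT {f : M → ℝ} (hf : IsLip f) (γ : FreeSpace M) : fn (UT o T f) γ = fn f (T γ) := by
  set φ : FreeSpace M →L[ℝ] ℝ := (fn f).comp (T.toContinuousLinearEquiv : FreeSpace M →L[ℝ] FreeSpace M) with hφ
  have : UT o T f = fun m => φ (mol m o) := rfl
  rw [this, fn_dual]
  rfl

lemma UT_symm {f : M → ℝ} (hf : IsLip f) (z : M) : UT o T.symm (UT o T f) z = f z - f o := by
  obtain ⟨K, h0, hK⟩ := hf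
  show fn (UT o T f) (T.symm (mol z o)) = _
  rw [fn_UT o T ⟨K, h0, hK⟩, T.apply_symm_apply, fn_mol hK]

lemma UT_symm' {f : M → ℝ} (hf : IsLip f) (z : M) : UT o T (UT o T.symm f) z = f z - f o := by
  have := UT_symm o T.symm hf z
  simpa using this

lemma UT_tendsto {f : ℕ → M → ℝ} {f0 : M → ℝ} {K : ℝ} (hf : ∀ n, LK K (f n))
    (h : ∀ p q, Tendsto (fun n => f n p - f n q) atTop (𝓝 (f0 p - f0 q))) (z : M) :
    Tendsto (fun n => UT o T (f n) z) atTop (𝓝 (UT o T f0 z)) := fn_tendsto hf h _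

end op

/-! ### the Hahn–Banach representation -/

section hb
variable (E : Type*) [NormedAddCommGroup E] [NormedSpace ℝ E] (δ : ℝ)

/-- pairs of different points at distance at most `δ` -/
structure Om where
  x : E
  y : E
  ne : x ≠ y
  le : dist x y ≤ δ

variable {E δ}

/-- the difference quotients -/
noncomputable def DQ (δ : ℝ) (G : E → ℝ) : Om E δ → ℝ := fun w => (G w.x - G w.y) / dist w.x w.y

lemma Om.pos (w : Om E δ) : 0 < dist w.x w.y := dist_pos.2 w.ne

lemma DQ_le {G : E → ℝ} {K : ℝ} (h : LK K G) (w : Om E δ) : |DQ δ G w| ≤ K := by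
  unfold DQ
  rw [abs_div, abs_of_pos w.pos, div_le_iff₀ w.pos]
  exact h.abs _ _

/-- the bounded functions -/
def Bd (E : Type*) [NormedAddCommGroup E] (δ : ℝ) : Submodule ℝ (Om E δ → ℝ) where
  carrier := {Φ | ∃ C, ∀ w, |Φ w| ≤ C}
  zero_mem' := ⟨0, fun w => by simp⟩
  add_mem' := by
    rintro a b ⟨C, hC⟩ ⟨C', hC'⟩
    exact ⟨C + C', fun w => (abs_add_le _ _).trans (add_le_add (hC w) (hC' w))⟩
  smul_mem' := by
    rintro c a ⟨C, hC⟩
    refine ⟨|c| * C, fun w => ?_⟩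
    rw [Pi.smul_apply, smul_eq_mul, abs_mul]
    exact mul_le_mul_of_nonneg_left (hC w) (abs_nonneg c)

/-- the Lipschitz functions -/
def LipS (M : Type*) [PseudoMetricSpace M] : Submodule ℝ (M → ℝ) where
  carrier := {f | IsLip f}
  zero_mem' := isLip_const 0
  add_mem' := fun ha hb => ha.add hb
  smul_mem' := fun c _ ha => ha.const_mul c

noncomputable def sn (Φ : Om E δ → ℝ) : ℝ := ⨆ w, |Φ w|

lemma sn_nonneg (Φ : Om E δ → ℝ) : 0 ≤ sn Φ := Real.iSup_nonneg (fun w => abs_nonneg _)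

lemma le_sn {Φ : Om E δ → ℝ} (h : ∃ C, ∀ w, |Φ w| ≤ C) (w : Om E δ) : |Φ w| ≤ sn Φ := by
  obtain ⟨C, hC⟩ := h
  exact le_ciSup (f := fun w => |Φ w|) ⟨C, by rintro _ ⟨w, rfl⟩; exact hC w⟩ w

lemma sn_le {Φ : Om E δ → ℝ} {C : ℝ} (h0 : 0 ≤ C) (h : ∀ w, |Φ w| ≤ C) : sn Φ ≤ C := Real.iSup_le h h0

lemma LK_of_DQ {G : E → ℝ} (hG : IsLip G) (hδ : 0 < δ) : LK (sn (DQ δ G)) G := by
  obtain ⟨K, h0, hK⟩ := hG
  apply LK_of_local hK.continuous
  intro x
  filter_upwards [Metric.closedBall_mem_nhds x hδ] with y hy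
  by_cases hxy : y = x
  · rw [hxy]; simp
  · have h1 := le_sn ⟨K, DQ_le hK⟩ (⟨y, x, hxy, hy⟩ : Om E δ)
    unfold DQ at h1
    simp only at h1
    rw [abs_div, abs_of_pos (dist_pos.2 hxy), div_le_iff₀ (dist_pos.2 hxy)] at h1
    exact h1

theorem hb (hδ : 0 < δ) (μ : FreeSpace E) : ∃ Λ : (Om E δ → ℝ) →ₗ[ℝ] ℝ,
    (∀ (Φ : Om E δ → ℝ) (C : ℝ), 0 ≤ C → (∀ w, |Φ w| ≤ C) → |Λ Φ| ≤ ‖μ‖ * C) ∧
    ∀ G : E → ℝ, IsLip G → Λ (DQ δ G) = fn G μ := by
  -- the functional on the Lipschitz functions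
  let γ : LipS E →ₗ[ℝ] ℝ :=
    { toFun := fun G => fn G.1 μ
      map_add' := by
        rintro ⟨f, K, h0, hK⟩ ⟨g, L, h1, hL⟩
        have := fn_lin hK hL 1 1 μ
        simp only [one_mul] at this
        exact this
      map_smul' := by
        rintro c ⟨f, K, h0, hK⟩
        have := fn_lin hK hK c 0 μ
        simp only [zero_mul, add_zero] at this
        exact this }
  let D : LipS E →ₗ[ℝ] (Bd E δ) :=
    { toFun := fun G => ⟨DQ δ G.1, by
        obtain ⟨f, K, h0, hK⟩ := G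
        exact ⟨K, fun w => DQ_le hK w⟩⟩
      map_add' := by
        intro f g
        apply Subtype.ext
        funext w
        show (f.1 w.x + g.1 w.x - (f.1 w.y + g.1 w.y)) / dist w.x w.y = _ / _ + _ / _
        ring
      map_smul' := by
        intro c f
        apply Subtype.ext
        funext w
        show (c * f.1 w.x - c * f.1 w.y) / dist w.x w.y = c * (_ / _)
        ring }
  let N : (LipS E × Bd E δ) → ℝ := fun X => ‖μ‖ * sn ((D X.1 + X.2 : Bd E δ) : Om E δ → ℝ)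
  obtain ⟨g, hg1, hg2⟩ := exists_extension_of_le_sublinear
    (⟨(⊤ : Submodule ℝ (LipS E)).prod (⊥ : Submodule ℝ (Bd E δ)),
      (γ.comp (LinearMap.fst ℝ _ _)).comp (Submodule.subtype _)⟩ : (LipS E × Bd E δ) →ₗ.[ℝ] ℝ) N
    (by
      intro c hc X
      show ‖μ‖ * sn _ = c * (‖μ‖ * sn _)
      have e : ((D (c • X).1 + (c • X).2 : Bd E δ) : Om E δ → ℝ) = fun w => c * (D X.1 + X.2 : Bd E δ).1 w := by
        have : D (c • X).1 + (c • X).2 = c • (D X.1 + X.2) := by
          rw [Prod.smul_fst, Prod.smul_snd, map_smul, smul_add]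
        rw [this]
        rfl
      rw [e]
      unfold sn
      simp only [abs_mul, abs_of_pos hc]
      rw [← Real.mul_iSup_of_nonneg hc.le]
      ring)
    (by
      intro X Y
      show ‖μ‖ * sn _ ≤ ‖μ‖ * sn _ + ‖μ‖ * sn _
      rw [← mul_add]
      apply mul_le_mul_of_nonneg_left _ (norm_nonneg _)
      apply sn_le (add_nonneg (sn_nonneg _) (sn_nonneg _))
      intro w
      have e : D (X + Y).1 + (X + Y).2 = (D X.1 + X.2) + (D Y.1 + Y.2) := by
        rw [Prod.fst_add, Prod.snd_add, map_add]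
        abel
      rw [e]
      exact (abs_add_le _ _).trans (add_le_add (le_sn (D X.1 + X.2).2 w) (le_sn (D Y.1 + Y.2).2 w)))
    (by
      rintro ⟨⟨G, Φ⟩, h1, h2⟩
      have h2' : Φ = 0 := h2
      subst h2'
      show γ G ≤ ‖μ‖ * sn ((D G + 0 : Bd E δ) : Om E δ → ℝ)
      rw [add_zero, mul_comm]
      have h3 := fn_le (LK_of_DQ (δ := δ) G.2 hδ) μ
      exact (le_abs_self _).trans h3)
  -- the functional on the bounded functions
  let Λ₀ : Bd E δ →ₗ[ℝ] ℝ := g.comp (LinearMap.inr ℝ (LipS E) (Bd E δ))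
  obtain ⟨Λ, hΛ⟩ := LinearMap.exists_extend Λ₀
  have hΛ' : ∀ Φ : Bd E δ, Λ Φ.1 = g (0, Φ) := fun Φ => by
    have := congrArg (fun F : Bd E δ →ₗ[ℝ] ℝ => F Φ) hΛ
    exact this
  have hle : ∀ (Φ : Bd E δ), Λ Φ.1 ≤ ‖μ‖ * sn Φ.1 := by
    intro Φ
    rw [hΛ']
    refine (hg2 _).trans ?_
    show ‖μ‖ * sn ((D 0 + Φ : Bd E δ) : Om E δ → ℝ) ≤ _
    rw [map_zero, zero_add]
  refine ⟨Λ, ?_, ?_⟩
  · intro Φ C h0 hC
    have h1 := hle ⟨Φ, C, hC⟩
    have h2 := hle (-⟨Φ, C, hC⟩)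
    have e2 : ((-⟨Φ, C, hC⟩ : Bd E δ)).1 = -Φ := rfl
    rw [e2, map_neg] at h2
    have h3 : sn Φ ≤ C := sn_le h0 hC
    have h4 : sn (-Φ) ≤ C := sn_le h0 (fun w => by rw [Pi.neg_apply, abs_neg]; exact hC w)
    have h5 := mul_le_mul_of_nonneg_left h3 (norm_nonneg μ)
    have h6 := mul_le_mul_of_nonneg_left h4 (norm_nonneg μ)
    rw [abs_le]
    simp only at h1
    constructor <;> linarith
  · intro G hG
    have h1 : g ((⟨G, hG⟩ : LipS E), -(D ⟨G, hG⟩)) = 0 := by
      have a1 := hg2 ((⟨G, hG⟩ : LipS E), -(D ⟨G, hG⟩))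
      have a2 := hg2 (-((⟨G, hG⟩ : LipS E), -(D ⟨G, hG⟩)))
      have z : ∀ X : LipS E × Bd E δ, D X.1 + X.2 = 0 → N X = 0 := by
        intro X hX
        show ‖μ‖ * sn ((D X.1 + X.2 : Bd E δ) : Om E δ → ℝ) = 0
        rw [hX]
        have : sn ((0 : Bd E δ) : Om E δ → ℝ) = 0 := by
          apply le_antisymm (sn_le le_rfl (fun w => ?_)) (sn_nonneg _)
          show |(0 : ℝ)| ≤ 0
          simp
        rw [this, mul_zero]
      rw [z _ (by simp)] at a1
      rw [z _ (by simp), map_neg] at a2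
      linarith
    have h2 : g ((⟨G, hG⟩ : LipS E), (0 : Bd E δ)) = fn G μ :=
      hg1 ⟨((⟨G, hG⟩ : LipS E), (0 : Bd E δ)), ⟨trivial, rfl⟩⟩
    have h3 := hΛ' (D ⟨G, hG⟩)
    have h4 : g ((0 : LipS E), D ⟨G, hG⟩) = g ((⟨G, hG⟩ : LipS E), (0 : Bd E δ)) -
        g ((⟨G, hG⟩ : LipS E), -(D ⟨G, hG⟩)) := by
      rw [← map_sub]
      congr 1
      simp
    rw [h4, h1, h2, sub_zero] at h3
    exact h3

end hb

end Pool.Agent.K9h46.LO
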