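import Mathlib
import Pool.Agent.K9h46.LO.Op

set_option autoImplicit false
set_option linter.unusedSectionVars false
set_option linter.unusedVariables false

open MeasureTheory Set Filter Topology

namespace Pool.Agent.K9h46.LO

open Pool.Agent.Helper23K9.LR

lemma mulLK {M : Type*} [PseudoMetricSpace M] {H ψ : M → ℝ} {K L C : ℝ} (hH : LK K H) (hψ : LK L ψ)
    (hK : 0 ≤ K) (hL : 0 ≤ L) (hC : 0 ≤ C) (h01 : ∀ x, 0 ≤ ψ x ∧ ψ x ≤ 1) (hb : ∀ x, ψ x ≠ 0 → |H x| ≤ C) :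
    LK (K + C * L) (fun x => ψ x * H x) := by
  have key : ∀ x y, ψ x ≠ 0 → |ψ x * H x - ψ y * H y| ≤ (K + C * L) * dist x y := by
    intro x y hx
    have e : ψ x * H x - ψ y * H y = ψ y * (H x - H y) + H x * (ψ x - ψ y) := by ring
    rw [e]
    refine (abs_add_le _ _).trans ?_
    rw [abs_mul, abs_mul, abs_of_nonneg (h01 y).1]
    have h1 := hH.abs x y
    have h2 := hψ.abs x y
    have h3 := hb x hx
    have h4 : ψ y * |H x - H y| ≤ 1 * (K * dist x y) :=
      mul_le_mul (h01 y).2 h1 (abs_nonneg _) zero_le_one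
    have h5 : |H x| * |ψ x - ψ y| ≤ C * (L * dist x y) := mul_le_mul h3 h2 (abs_nonneg _) hC
    calc _ ≤ 1 * (K * dist x y) + C * (L * dist x y) := add_le_add h4 h5
      _ = _ := by ring
  intro x y
  by_cases hx : ψ x = 0
  · by_cases hy : ψ y = 0
    · beta_reduce
      rw [hx, hy]
      have : 0 ≤ (K + C * L) * dist x y := by positivity
      linarith
    · have := key y x hy
      rw [abs_sub_comm, dist_comm] at this
      exact (le_abs_self _).trans this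
  · exact (le_abs_self _).trans (key x y hx)

lemma unif {M : Type*} [PseudoMetricSpace M] [ProperSpace M] {H : ℕ → M → ℝ} {K : ℝ} (hK0 : 0 ≤ K)
    (hK : ∀ n, LK K (H n)) (h0 : ∀ x, Tendsto (fun n => H n x) atTop (𝓝 0)) (a : M) (R : ℝ) {ε : ℝ} (hε : 0 < ε) :
    ∀ᶠ n in atTop, ∀ x ∈ Metric.closedBall a R, |H n x| ≤ ε := by
  obtain ⟨t, -, htf, ht⟩ := (isCompact_closedBall a R).finite_cover_balls (e := ε / (2 * (K + 1))) (by positivity)
  have h1 : ∀ᶠ n in atTop, ∀ z ∈ t, |H n z| ≤ ε / 2 := by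
    rw [eventually_all_finite htf]
    intro z _
    have h2 := (h0 z).abs
    rw [abs_zero] at h2
    exact h2.eventually (ge_mem_nhds (show 0 < ε / 2 by positivity))
  filter_upwards [h1] with n hn x hx
  have h2 := ht hx
  simp only [mem_iUnion, Metric.mem_ball, exists_prop] at h2
  obtain ⟨z, hz, hxz⟩ := h2
  have h3 := (hK n).abs x z
  have h4 := hn z hz
  have h5 : K * dist x z ≤ K * (ε / (2 * (K + 1))) := mul_le_mul_of_nonneg_left hxz.le hK0
  have h6 : K * (ε / (2 * (K + 1))) ≤ ε / 2 := by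
    rw [mul_div_assoc', div_le_div_iff₀ (by positivity) (by positivity)]
    nlinarith
  have h7 : |H n x| ≤ |H n x - H n z| + |H n z| := by
    have := abs_add_le (H n x - H n z) (H n z)
    simpa using this
  linarith

section split
variable {E : Type*} [NormedAddCommGroup E] [NormedSpace ℝ E] {δ : ℝ}

theorem cont_half [ProperSpace E] (hδ : 0 < δ) {μ : FreeSpace E} {Λ : (Om E δ → ℝ) →ₗ[ℝ] ℝ}
    (h1 : ∀ (Φ : Om E δ → ℝ) (C : ℝ), 0 ≤ C → (∀ w, |Φ w| ≤ C) → |Λ Φ| ≤ ‖μ‖ * C)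
    (h2 : ∀ G : E → ℝ, IsLip G → Λ (DQ δ G) = fn G μ) {ψ : E → ℝ} {L : ℝ} (hL : 0 ≤ L) (hψ : LK L ψ)
    (h01 : ∀ x, 0 ≤ ψ x ∧ ψ x ≤ 1) {a : E} {ρ : ℝ} (hs : ∀ x, ρ < dist x a → ψ x = 0)
    {H : ℕ → E → ℝ} {K : ℝ} (hK0 : 0 ≤ K) (hK : ∀ n, LK K (H n))
    (h0 : ∀ x, Tendsto (fun n => H n x) atTop (𝓝 0)) :
    Tendsto (fun n => Λ (fun w => ψ w.x * DQ δ (H n) w)) atTop (𝓝 0) := by
  -- a uniform bound
  obtain ⟨C₁, hC₁⟩ : ∃ C₁, ∀ n, |H n a| ≤ C₁ := by
    obtain ⟨C, hC⟩ := (h0 a).abs.bddAbove_range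
    exact ⟨C, fun n => hC ⟨n, rfl⟩⟩
  have hC₁0 : 0 ≤ C₁ := (abs_nonneg _).trans (hC₁ 0)
  set C := C₁ + K * |ρ| with hC
  have hC0 : 0 ≤ C := by positivity
  have hbd : ∀ n x, ψ x ≠ 0 → |H n x| ≤ C := by
    intro n x hx
    have hx' : dist x a ≤ ρ := by
      by_contra hcon
      push Not at hcon
      exact hx (hs x hcon)
    have h3 := (hK n).abs x a
    have h4 := hC₁ n
    have h5 : K * dist x a ≤ K * |ρ| := mul_le_mul_of_nonneg_left (hx'.trans (le_abs_self _)) hK0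
    have h7 : |H n x| ≤ |H n x - H n a| + |H n a| := by
      have := abs_add_le (H n x - H n a) (H n a)
      simpa using this
    linarith
  have hlk : ∀ n, LK (K + C * L) (fun x => ψ x * H n x) := fun n => mulLK (hK n) hψ hK0 hL hC0 h01 (hbd n)
  have hid : ∀ n, Λ (fun w => ψ w.x * DQ δ (H n) w) = fn (fun x => ψ x * H n x) μ -
      Λ (fun w => H n w.y * DQ δ ψ w) := by
    intro n
    rw [← h2 _ (LK.isLip (hlk n)), ← map_sub]
    congr 1
    funext w
    rw [Pi.sub_apply]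
    unfold DQ
    ring
  have t1 : Tendsto (fun n => fn (fun x => ψ x * H n x) μ) atTop (𝓝 0) := by
    have e : fn (fun _ : E => (0 : ℝ)) μ = 0 := by
      have := fn_le (M := E) (K := 0) (f := fun _ => 0) (fun x y => by simp) μ
      rw [zero_mul] at this
      exact abs_eq_zero.1 (le_antisymm this (abs_nonneg _))
    rw [← e]
    apply fn_tendsto hlk
    intro p q
    have := ((h0 p).const_mul (ψ p)).sub ((h0 q).const_mul (ψ q))
    simpa using this
  have t2 : Tendsto (fun n => Λ (fun w => H n w.y * DQ δ ψ w)) atTop (𝓝 0) := by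
    rw [Metric.tendsto_atTop]
    intro ε hε
    have h3 := unif hK0 hK h0 a (ρ + δ) (ε := ε / (2 * (‖μ‖ + 1) * (L + 1))) (by positivity)
    obtain ⟨N, hN⟩ := eventually_atTop.1 h3
    refine ⟨N, fun n hn => ?_⟩
    rw [Real.dist_eq, sub_zero]
    have h4 := h1 (fun w => H n w.y * DQ δ ψ w) (ε / (2 * (‖μ‖ + 1) * (L + 1)) * L) (by positivity) (by
      intro w
      rw [abs_mul]
      by_cases hw : DQ δ ψ w = 0
      · rw [hw, abs_zero, mul_zero]; positivity
      · have hy : w.y ∈ Metric.closedBall a (ρ + δ) := by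
          rw [Metric.mem_closedBall]
          by_contra hcon
          push Not at hcon
          apply hw
          have k1 : ψ w.y = 0 := hs _ (by linarith)
          have k2 : ψ w.x = 0 := by
            apply hs
            have := dist_triangle w.y w.x a
            have h5 := w.le
            rw [dist_comm] at h5
            linarith
          unfold DQ
          rw [k1, k2]; simp
        exact mul_le_mul (hN n hn _ hy) (DQ_le hψ w) (abs_nonneg _) (by positivity))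
    refine h4.trans_lt ?_
    have e1 : ‖μ‖ * (ε / (2 * (‖μ‖ + 1) * (L + 1)) * L) = ε / 2 * ((‖μ‖ / (‖μ‖ + 1)) * (L / (L + 1))) := by
      field_simp
    rw [e1]
    have e2 : ‖μ‖ / (‖μ‖ + 1) ≤ 1 := by
      rw [div_le_one (by positivity)]; linarith
    have e3 : L / (L + 1) ≤ 1 := by
      rw [div_le_one (by positivity)]; linarith
    have e4 : (‖μ‖ / (‖μ‖ + 1)) * (L / (L + 1)) ≤ 1 * 1 := mul_le_mul e2 e3 (by positivity) zero_le_one
    nlinarith
  have := t1.sub t2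
  rw [sub_zero] at this
  exact this.congr (fun n => (hid n).symm)

theorem split_norm {μ : FreeSpace E} {Λ : (Om E δ → ℝ) →ₗ[ℝ] ℝ}
    (h1 : ∀ (Φ : Om E δ → ℝ) (C : ℝ), 0 ≤ C → (∀ w, |Φ w| ≤ C) → |Λ Φ| ≤ ‖μ‖ * C)
    {ψ : E → ℝ} (h01 : ∀ x, 0 ≤ ψ x ∧ ψ x ≤ 1) {G₁ G₂ : E → ℝ} {K : ℝ} (hK0 : 0 ≤ K)
    (hG₁ : LK K G₁) (hG₂ : LK K G₂) :
    |Λ (fun w => ψ w.x * DQ δ G₁ w) + Λ (fun w => (1 - ψ w.x) * DQ δ G₂ w)| ≤ ‖μ‖ * K := by
  rw [← map_add]
  apply h1 _ _ hK0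
  intro w
  rw [Pi.add_apply]
  refine (abs_add_le _ _).trans ?_
  rw [abs_mul, abs_mul, abs_of_nonneg (h01 w.x).1, abs_of_nonneg (sub_nonneg.2 (h01 w.x).2)]
  have k1 := mul_le_mul_of_nonneg_left (DQ_le hG₁ w) (h01 w.x).1
  have k2 := mul_le_mul_of_nonneg_left (DQ_le hG₂ w) (sub_nonneg.2 (h01 w.x).2)
  linarith

end split

end Pool.Agent.K9h46.LO
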