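import Mathlib
import Pool.Agent.K9h46.LO.Split

set_option autoImplicit false
set_option linter.unusedSectionVars false
set_option linter.unusedVariables false

open MeasureTheory Set Filter Topology

namespace Pool.Agent.K9h46.LO

open Pool.Agent.Helper23K9.LR

/-- `ℝ^d` with the Manhattan distance -/
abbrev X (d : ℕ) := PiLp 1 (fun _ : Fin d => ℝ)

variable {d : ℕ}

lemma dist_X (x y : X d) : dist x y = ∑ i, |x i - y i| := by
  rw [PiLp.dist_eq_of_L1]
  rfl

/-- basis vectors -/
noncomputable def e (i : Fin d) : X d := PiLp.single 1 i (1 : ℝ)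

lemma e_same (i : Fin d) : (e i : X d) i = 1 := PiLp.single_eq_same ..

lemma e_ne {i j : Fin d} (h : j ≠ i) : (e i : X d) j = 0 := PiLp.single_eq_of_ne _ h _

lemma norm_e (i : Fin d) : ‖(e i : X d)‖ = 1 := by
  unfold e
  rw [PiLp.norm_single, norm_one]

/-- coordinate functions -/
def cd (i : Fin d) : X d → ℝ := fun x => x i

lemma dist_split (i : Fin d) (x y : X d) : dist x y = |x i - y i| + ∑ j ∈ Finset.univ.erase i, |x j - y j| := by
  rw [dist_X]
  exact (Finset.add_sum_erase Finset.univ (fun j => |x j - y j|) (Finset.mem_univ i)).symm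

lemma LK_cd (i : Fin d) : LK 1 (cd i : X d → ℝ) := fun x y => by
  rw [dist_split i, one_mul]
  have h1 : 0 ≤ ∑ j ∈ Finset.univ.erase i, |x j - y j| := Finset.sum_nonneg (fun _ _ => abs_nonneg _)
  have h2 := le_abs_self (x i - y i)
  unfold cd
  linarith

lemma isLip_cd (i : Fin d) : IsLip (cd i : X d → ℝ) := ⟨1, zero_le_one, LK_cd i⟩

lemma seg_same (q : X d) (t : ℝ) (i : Fin d) : (q + t • e i) i = q i + t := by
  show q i + t * e i i = _
  rw [e_same, mul_one]

lemma seg_ne (q : X d) (t : ℝ) {i j : Fin d} (h : j ≠ i) : (q + t • e i) j = q j := by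
  show q j + t * e i j = _
  rw [e_ne h, mul_zero, add_zero]

lemma dist_seg (q : X d) (t t' : ℝ) (i : Fin d) : dist (q + t • e i) (q + t' • e i) = |t - t'| := by
  rw [dist_eq_norm]
  have : q + t • e i - (q + t' • e i) = (t - t') • e i := by
    rw [sub_smul]; abel
  rw [this, norm_smul, norm_e, mul_one, Real.norm_eq_abs]

/-- the projection to the interval `[l, l + s]` -/
noncomputable def pr (l s u : ℝ) : ℝ := max l (min (l + s) u)

lemma pr_ge (l s u : ℝ) : l ≤ pr l s u := le_max_left _ _

lemma pr_le {l s : ℝ} (hs : 0 ≤ s) (u : ℝ) : pr l s u ≤ l + s :=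
  max_le (by linarith) (min_le_left _ _)

lemma pr_mono (l s : ℝ) : Monotone (pr l s) := fun u v h => max_le_max le_rfl (min_le_min le_rfl h)

lemma pr_self {l s u : ℝ} (h1 : l ≤ u) (h2 : u ≤ l + s) : pr l s u = u := by
  unfold pr
  rw [min_eq_right h2, max_eq_right h1]

lemma pr_lt {l s u : ℝ} (hs : 0 ≤ s) (h1 : u ≤ l) : pr l s u = l := by
  unfold pr
  rw [min_eq_right (by linarith), max_eq_left h1]

lemma pr_gt {l s u : ℝ} (hs : 0 ≤ s) (h1 : l + s ≤ u) : pr l s u = l + s := by
  unfold pr
  rw [min_eq_left h1, max_eq_right (by linarith)]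

lemma pr_slope {l s : ℝ} (hs : 0 ≤ s) : Slope (pr l s) := by
  intro u v h
  refine ⟨sub_nonneg.2 (pr_mono l s h), ?_⟩
  rcases le_total u l with h1 | h1
  · rw [pr_lt hs h1, pr_lt hs (h.trans h1)]
    linarith
  · rcases le_total (l + s) u with h2 | h2
    · rw [pr_gt hs h2]
      have := pr_ge l s v
      rcases le_total (l + s) v with h3 | h3
      · rw [pr_gt hs h3]; linarith
      · rcases le_total v l with h4 | h4
        · rw [pr_lt hs h4]; linarith
        · rw [pr_self h4 h3]; linarith
    · rw [pr_self h1 h2]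
      rcases le_total v l with h4 | h4
      · rw [pr_lt hs h4]; linarith
      · rw [pr_self h4 (h.trans h2)]

/-- a functional which is a component of the increment along a segment -/
structure SegF (q : X d) (i : Fin d) (s : ℝ) where
  β : (X d → ℝ) → ℝ
  B : ℝ
  lin : ∀ {f g : X d → ℝ}, IsLip f → IsLip g → ∀ a b : ℝ, β (fun x => a * f x + b * g x) = a * β f + b * β g
  hB : ∀ f, LK 1 f → β f ≤ B
  hA : ∀ f, LK 1 f → (f (q + s • e i) - f q) - β f ≤ s - B
  cont : ∀ (f : ℕ → X d → ℝ) (f0 : X d → ℝ) (K : ℝ), 0 ≤ K → (∀ n, LK K (f n)) → LK K f0 →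
    (∀ x, Tendsto (fun n => f n x) atTop (𝓝 (f0 x))) → Tendsto (fun n => β (f n)) atTop (𝓝 (β f0))

/-- the lateral distance -/
noncomputable def lat (q : X d) (i : Fin d) (x : X d) : ℝ := ∑ j ∈ Finset.univ.erase i, |x j - q j|

lemma lat_nonneg (q : X d) (i : Fin d) (x : X d) : 0 ≤ lat q i x := Finset.sum_nonneg (fun _ _ => abs_nonneg _)

lemma lat_sub (q : X d) (i : Fin d) (x y : X d) :
    |lat q i x - lat q i y| ≤ ∑ j ∈ Finset.univ.erase i, |x j - y j| := by
  unfold lat
  rw [← Finset.sum_sub_distrib]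
  refine (Finset.abs_sum_le_sum_abs _ _).trans (Finset.sum_le_sum fun j _ => ?_)
  have := abs_abs_sub_abs_le_abs_sub (x j - q j) (y j - q j)
  rwa [sub_sub_sub_cancel_right] at this

lemma LK_lat (q : X d) (i : Fin d) : LK 1 (lat q i) := fun x y => by
  rw [dist_split i, one_mul]
  have h1 := (le_abs_self _).trans (lat_sub q i x y)
  have h2 := abs_nonneg (x i - y i)
  linarith

/-- the distance to the segment -/
noncomputable def dseg (q : X d) (i : Fin d) (s : ℝ) (x : X d) : ℝ := |x i - pr (q i) s (x i)| + lat q i x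

lemma dseg_cont (q : X d) (i : Fin d) {s : ℝ} (hs : 0 ≤ s) : Continuous (dseg q i s) := by
  unfold dseg
  have h1 : Continuous (fun x : X d => x i) := (LK_cd i).continuous
  have h2 : Continuous (pr (q i) s) := (pr_slope hs).LK.continuous
  have h3 : Continuous (lat q i) := (LK_lat q i).continuous
  exact ((h1.sub (h2.comp h1)).abs).add h3

/-- the norming function of the segment -/
noncomputable def nf (q : X d) (i : Fin d) (s : ℝ) (x : X d) : ℝ :=
  max (1 - lat q i x / s) 0 * (pr (q i) s (x i) - q i - s / 2)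

lemma nf_diff (q : X d) (i : Fin d) {s : ℝ} (hs : 0 < s) (x y : X d) :
    |nf q i s y - nf q i s x| ≤ max (1 - lat q i x / s) 0 * |pr (q i) s (y i) - pr (q i) s (x i)| +
      1 / 2 * ∑ j ∈ Finset.univ.erase i, |y j - x j| := by
  set l := lat q i with hl
  have e1 : nf q i s y - nf q i s x = max (1 - l x / s) 0 * (pr (q i) s (y i) - pr (q i) s (x i)) +
      (max (1 - l y / s) 0 - max (1 - l x / s) 0) * (pr (q i) s (y i) - q i - s / 2) := by
    unfold nf
    ring
  rw [e1]
  refine (abs_add_le _ _).trans (add_le_add ?_ ?_)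
  · rw [abs_mul, abs_of_nonneg (le_max_right _ (0 : ℝ))]
  · rw [abs_mul]
    have h1 : |pr (q i) s (y i) - q i - s / 2| ≤ s / 2 := by
      have h2 := pr_ge (q i) s (y i)
      have h3 := pr_le (l := q i) hs.le (y i)
      rw [abs_le]
      constructor <;> linarith
    have h2 : |max (1 - l y / s) 0 - max (1 - l x / s) 0| ≤ (∑ j ∈ Finset.univ.erase i, |y j - x j|) / s := by
      refine (abs_max_sub_max_le_abs _ _ 0).trans ?_
      have e2 : 1 - l y / s - (1 - l x / s) = (l x - l y) / s := by ring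
      rw [e2, abs_div, abs_of_pos hs, div_le_div_iff_of_pos_right hs, abs_sub_comm]
      exact lat_sub q i y x
    calc |max (1 - l y / s) 0 - max (1 - l x / s) 0| * |pr (q i) s (y i) - q i - s / 2|
        ≤ (∑ j ∈ Finset.univ.erase i, |y j - x j|) / s * (s / 2) := mul_le_mul h2 h1 (abs_nonneg _)
          (div_nonneg (Finset.sum_nonneg (fun _ _ => abs_nonneg _)) hs.le)
      _ = _ := by field_simp

lemma LK_nf (q : X d) (i : Fin d) {s : ℝ} (hs : 0 < s) : LK 1 (nf q i s) := by
  intro x y
  have h1 := nf_diff q i hs y x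
  have h2 : max (1 - lat q i y / s) 0 ≤ 1 := by
    apply max_le _ zero_le_one
    have : 0 ≤ lat q i y / s := div_nonneg (lat_nonneg _ _ _) hs.le
    linarith
  have h3 : |pr (q i) s (x i) - pr (q i) s (y i)| ≤ |x i - y i| := by
    have := (pr_slope (l := q i) hs.le).LK.abs (x i) (y i)
    rwa [one_mul, Real.dist_eq] at this
  have h4 : max (1 - lat q i y / s) 0 * |pr (q i) s (x i) - pr (q i) s (y i)| ≤ 1 * |x i - y i| :=
    mul_le_mul h2 h3 (abs_nonneg _) zero_le_one
  have h5 : 0 ≤ ∑ j ∈ Finset.univ.erase i, |x j - y j| := Finset.sum_nonneg (fun _ _ => abs_nonneg _)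
  rw [dist_split i, one_mul]
  have := le_abs_self (nf q i s x - nf q i s y)
  linarith

lemma nf_inc (q : X d) (i : Fin d) {s : ℝ} (hs : 0 < s) : nf q i s (q + s • e i) - nf q i s q = s := by
  have h1 : lat q i (q + s • e i) = 0 := by
    unfold lat
    apply Finset.sum_eq_zero
    intro j hj
    rw [seg_ne _ _ (Finset.ne_of_mem_erase hj), sub_self, abs_zero]
  have h2 : lat q i q = 0 := by
    unfold lat
    apply Finset.sum_eq_zero
    intro j hj
    rw [sub_self, abs_zero]
  unfold nf
  rw [h1, h2, seg_same, pr_gt hs.le le_rfl, pr_lt hs.le le_rfl]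
  simp only [zero_div, sub_zero]
  rw [max_eq_left zero_le_one]
  ring

lemma pr_locconst {l s u : ℝ} (hs : 0 < s) (h : pr l s u ≠ u) : ∀ᶠ v in 𝓝 u, pr l s v = pr l s u := by
  rcases lt_or_ge u l with h1 | h1
  · filter_upwards [gt_mem_nhds h1] with v hv
    rw [pr_lt hs.le hv.le, pr_lt hs.le h1.le]
  · rcases lt_or_ge (l + s) u with h2 | h2
    · filter_upwards [lt_mem_nhds h2] with v hv
      rw [pr_gt hs.le hv.le, pr_gt hs.le h2.le]
    · exact absurd (pr_self h1 h2) h

lemma nf_perturb (q : X d) (i : Fin d) {s : ℝ} (hs : 0 < s) {δ : ℝ} (hδ : 0 < δ) (hδs : δ ≤ s) {f : X d → ℝ}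
    {K : ℝ} (hK0 : 0 ≤ K) (hf : LK K f) (h0 : ∀ x, dseg q i s x < δ → f x = 0) {τ : ℝ}
    (hτ : |τ| * K ≤ δ / (2 * s)) : LK 1 (fun x => nf q i s x + τ * f x) := by
  have hδs2 : δ / (2 * s) ≤ 1 / 2 := by
    rw [div_le_div_iff₀ (by positivity) (by positivity)]; linarith
  apply LK_of_local
  · exact ((LK_nf q i hs).continuous).add (hf.continuous.const_mul τ)
  intro x
  rcases lt_or_ge (dseg q i s x) δ with hx | hx
  · filter_upwards [(dseg_cont q i hs.le).continuousAt.eventually (gt_mem_nhds hx)] with y hy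
    rw [h0 x hx, h0 y hy, mul_zero, add_zero, add_zero]
    exact (LK_nf q i hs).abs y x
  · have hτf : ∀ y, |τ * (f y - f x)| ≤ δ / (2 * s) * dist y x := by
      intro y
      rw [abs_mul]
      calc |τ| * |f y - f x| ≤ |τ| * (K * dist y x) := mul_le_mul_of_nonneg_left (hf.abs y x) (abs_nonneg _)
        _ = |τ| * K * dist y x := by ring
        _ ≤ _ := mul_le_mul_of_nonneg_right hτ dist_nonneg
    have hsum : ∀ y, |nf q i s y + τ * f y - (nf q i s x + τ * f x)| ≤ |nf q i s y - nf q i s x| +
        δ / (2 * s) * dist y x := by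
      intro y
      have e1 : nf q i s y + τ * f y - (nf q i s x + τ * f x) = (nf q i s y - nf q i s x) + τ * (f y - f x) := by
        ring
      rw [e1]
      exact (abs_add_le _ _).trans (add_le_add le_rfl (hτf y))
    rcases le_or_gt (δ / 2) (lat q i x) with hl | hl
    · filter_upwards with y
      have h1 := nf_diff q i hs x y
      have h2 : max (1 - lat q i x / s) 0 ≤ 1 - δ / (2 * s) := by
        apply max_le _ (by linarith)
        have : δ / (2 * s) ≤ lat q i x / s := by
          rw [div_le_div_iff₀ (by positivity) hs]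
          nlinarith
        linarith
      have h3 : |pr (q i) s (y i) - pr (q i) s (x i)| ≤ |y i - x i| := by
        have := (pr_slope (l := q i) hs.le).LK.abs (y i) (x i)
        rwa [one_mul, Real.dist_eq] at this
      have h4 : max (1 - lat q i x / s) 0 * |pr (q i) s (y i) - pr (q i) s (x i)| ≤ (1 - δ / (2 * s)) * |y i - x i| :=
        mul_le_mul h2 h3 (abs_nonneg _) (by linarith)
      have h5 : 0 ≤ ∑ j ∈ Finset.univ.erase i, |y j - x j| := Finset.sum_nonneg (fun _ _ => abs_nonneg _)
      have h6 : 1 / 2 * ∑ j ∈ Finset.univ.erase i, |y j - x j| ≤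
          (1 - δ / (2 * s)) * ∑ j ∈ Finset.univ.erase i, |y j - x j| :=
        mul_le_mul_of_nonneg_right (by linarith) h5
      have h7 := hsum y
      have h8 := dist_split i y x
      have h9 : (1 - δ / (2 * s)) * dist y x = (1 - δ / (2 * s)) * |y i - x i| + (1 - δ / (2 * s)) * ∑ j ∈ Finset.univ.erase i, |y j - x j| := by
        rw [h8]; ring
      rw [one_mul]
      linarith
    · have hne : pr (q i) s (x i) ≠ x i := by
        intro hcon
        unfold dseg at hx
        rw [hcon, sub_self, abs_zero, zero_add] at hx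
        linarith
      have h1 := pr_locconst hs hne
      have h2 : Continuous (fun x : X d => x i) := (LK_cd i).continuous
      filter_upwards [h2.continuousAt.eventually h1] with y hy
      have h3 := nf_diff q i hs x y
      rw [hy, sub_self, abs_zero, mul_zero, zero_add] at h3
      have h4 : ∑ j ∈ Finset.univ.erase i, |y j - x j| ≤ dist y x := by
        rw [dist_split i]
        have := abs_nonneg (y i - x i)
        linarith
      have h5 := hsum y
      have h6 : δ / (2 * s) * dist y x ≤ 1 / 2 * dist y x := mul_le_mul_of_nonneg_right hδs2 dist_nonneg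
      rw [one_mul]
      linarith

namespace SegF

variable {q : X d} {i : Fin d} {s : ℝ} (S : SegF q i s)

lemma smul {f : X d → ℝ} (hf : IsLip f) (a : ℝ) : S.β (fun x => a * f x) = a * S.β f := by
  have := S.lin hf hf a 0
  simpa using this

lemma add {f g : X d → ℝ} (hf : IsLip f) (hg : IsLip g) : S.β (fun x => f x + g x) = S.β f + S.β g := by
  have := S.lin hf hg 1 1
  simpa using this

lemma sub {f g : X d → ℝ} (hf : IsLip f) (hg : IsLip g) : S.β (fun x => f x - g x) = S.β f - S.β g := by
  have := S.lin hf hg 1 (-1)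
  simpa [sub_eq_add_neg] using this

lemma norming {f : X d → ℝ} (hf : LK 1 f) (h : f (q + s • e i) - f q = s) : S.β f = S.B := by
  have h1 := S.hB f hf
  have h2 := S.hA f hf
  linarith

/-- functions vanishing near the segment are killed -/
lemma kill_near (hs : 0 < s) {δ : ℝ} (hδ : 0 < δ) {f : X d → ℝ} (hf : IsLip f)
    (h0 : ∀ x, dseg q i s x < δ → f x = 0) : S.β f = 0 := by
  wlog hδs : δ ≤ s generalizing δ
  · push Not at hδs
    exact this hs (fun x hx => h0 x (hx.trans hδs)) le_rfl
  obtain ⟨K, hK0, hK⟩ := hf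
  set τ := δ / (2 * s * (K + 1)) with hτ
  have hτ0 : 0 < τ := by positivity
  have hτK : τ * K ≤ δ / (2 * s) := by
    rw [hτ, div_mul_eq_mul_div, div_le_div_iff₀ (by positivity) (by positivity)]
    have : 0 < δ * s := by positivity
    nlinarith
  have h1 := nf_perturb q i hs hδ hδs hK0 hK h0 (τ := τ) (by rwa [abs_of_pos hτ0])
  have h2 := nf_perturb q i hs hδ hδs hK0 hK h0 (τ := -τ) (by rwa [abs_neg, abs_of_pos hτ0])
  have h3 := S.hB _ h1
  have h4 := S.hB _ h2
  have hn : IsLip (nf q i s) := LK.isLip (LK_nf q i hs)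
  have hfl : IsLip f := ⟨K, hK0, hK⟩
  rw [S.add hn (hfl.const_mul _), S.smul hfl, S.norming (LK_nf q i hs) (nf_inc q i hs)] at h3 h4
  nlinarith

/-- functions vanishing on the segment are killed -/
lemma kill (hs : 0 < s) {f : X d → ℝ} (hf : IsLip f)
    (h0 : ∀ t, 0 ≤ t → t ≤ s → f (q + t • e i) = 0) : S.β f = 0 := by
  obtain ⟨K, hK0, hK⟩ := hf
  -- soft thresholds
  set th : ℕ → ℝ → ℝ := fun n u => u - pr (-(1 / ((n : ℝ) + 1))) (2 / ((n : ℝ) + 1)) u with hth
  have hsl : ∀ n, Slope (th n) := by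
    intro n u v huv
    have h1 := pr_slope (l := -(1 / ((n : ℝ) + 1))) (s := 2 / ((n : ℝ) + 1)) (by positivity) u v huv
    simp only [hth]
    constructor <;> linarith [h1.1, h1.2]
  have hlk : ∀ n, LK K (fun x => th n (f x)) := by
    intro n
    have := Rel.LK.comp_real zero_le_one (hsl n).LK hK
    rwa [one_mul] at this
  have hb : ∀ (n : ℕ) u, |th n u - u| ≤ 1 / ((n : ℝ) + 1) := by
    intro n u
    have h1 := pr_ge (-(1 / ((n : ℝ) + 1))) (2 / ((n : ℝ) + 1)) u
    have h2 := pr_le (l := -(1 / ((n : ℝ) + 1))) (s := 2 / ((n : ℝ) + 1)) (by positivity) u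
    have e1 : -(1 / ((n : ℝ) + 1)) + 2 / ((n : ℝ) + 1) = 1 / ((n : ℝ) + 1) := by ring
    rw [e1] at h2
    rw [hth]
    simp only
    rw [abs_le]
    constructor <;> linarith
  have ht : ∀ x, Tendsto (fun n => th n (f x)) atTop (𝓝 (f x)) := by
    intro x
    rw [tendsto_iff_dist_tendsto_zero]
    apply squeeze_zero (fun n => dist_nonneg) (fun n => ?_) tendsto_one_div_add_atTop_nhds_zero_nat
    rw [Real.dist_eq]
    exact hb n (f x)
  have h1 := S.cont _ f K hK0 hlk hK ht
  have h2 : ∀ n, S.β (fun x => th n (f x)) = 0 := by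
    intro n
    apply S.kill_near hs (δ := 1 / (((n : ℝ) + 1) * (K + 1))) (by positivity) ⟨K, hK0, hlk n⟩
    intro x hx
    -- the nearest point of the segment
    set t := pr (q i) s (x i) - q i with ht
    have h3 : f (q + t • e i) = 0 := by
      apply h0
      · have := pr_ge (q i) s (x i); linarith
      · have := pr_le (l := q i) hs.le (x i); linarith
    have h4 : dist x (q + t • e i) = dseg q i s x := by
      rw [dist_split i]
      unfold dseg lat
      rw [seg_same]
      congr 1
      · congr 1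
        ring
      · apply Finset.sum_congr rfl
        intro j hj
        rw [seg_ne _ _ (Finset.ne_of_mem_erase hj)]
    have h5 := hK.abs x (q + t • e i)
    rw [h3, sub_zero, h4] at h5
    have h6 : |f x| ≤ 1 / ((n : ℝ) + 1) := by
      refine h5.trans ?_
      calc K * dseg q i s x ≤ K * (1 / (((n : ℝ) + 1) * (K + 1))) := mul_le_mul_of_nonneg_left hx.le hK0
        _ ≤ 1 / ((n : ℝ) + 1) := by
          rw [mul_one_div, div_le_div_iff₀ (by positivity) (by positivity)]
          have : (0 : ℝ) ≤ n := Nat.cast_nonneg n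
          nlinarith
    rw [abs_le] at h6
    rw [hth]
    simp only
    rw [pr_self h6.1 (by have e1 : -(1 / ((n : ℝ) + 1)) + 2 / ((n : ℝ) + 1) = 1 / ((n : ℝ) + 1) := by ring
                         rw [e1]; exact h6.2), sub_self]
  have h3 : (fun n => S.β (fun x => th n (f x))) = fun _ => (0 : ℝ) := funext h2
  rw [h3] at h1
  exact (tendsto_nhds_unique tendsto_const_nhds h1).symm

lemma B_eq (hs : 0 < s) : S.β (cd i) = S.B := by
  apply S.norming (LK_cd i)
  unfold cd
  rw [seg_same]
  ring

/-- nondecreasing functions of the coordinate -/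
lemma mono (hs : 0 < s) {F : ℝ → ℝ} {L : ℝ} (hL : 0 < L) (hF : ∀ u v, v ≤ u → 0 ≤ F u - F v ∧ F u - F v ≤ L * (u - v)) :
    0 ≤ S.β (fun x => F (x i)) ∧ S.β (fun x => F (x i)) ≤ F (q i + s) - F (q i) := by
  have hFl : IsLip (fun x : X d => F (x i)) := by
    refine ⟨L, hL.le, fun x y => ?_⟩
    have h1 : F (x i) - F (y i) ≤ L * |x i - y i| := by
      rcases le_total (y i) (x i) with h | h
      · rw [abs_of_nonneg (sub_nonneg.2 h)]; exact (hF _ _ h).2
      · have := (hF _ _ h).1
        have := mul_nonneg hL.le (abs_nonneg (x i - y i))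
        linarith
    refine h1.trans (mul_le_mul_of_nonneg_left ?_ hL.le)
    rw [dist_split i]
    have h1 : 0 ≤ ∑ j ∈ Finset.univ.erase i, |x j - y j| := Finset.sum_nonneg (fun _ _ => abs_nonneg _)
    linarith
  have hlk : LK 1 (fun x : X d => cd i x - (2 / L) * F (x i)) := by
    intro x y
    rw [one_mul]
    have h2 : cd i x - 2 / L * F (x i) - (cd i y - 2 / L * F (y i)) = (x i - y i) - 2 / L * (F (x i) - F (y i)) := by
      unfold cd; ring
    beta_reduce
    rw [h2]
    have h3 : (x i - y i) - 2 / L * (F (x i) - F (y i)) ≤ |x i - y i| := by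
      rcases le_total (y i) (x i) with h | h
      · have h4 := (hF _ _ h).1
        have h5 : 0 ≤ 2 / L * (F (x i) - F (y i)) := mul_nonneg (by positivity) h4
        have := le_abs_self (x i - y i)
        linarith
      · have h4 := (hF _ _ h).2
        have h5 : 2 / L * (F (y i) - F (x i)) ≤ 2 / L * (L * (y i - x i)) := mul_le_mul_of_nonneg_left h4 (by positivity)
        have h6 : 2 / L * (L * (y i - x i)) = 2 * (y i - x i) := by field_simp
        rw [abs_of_nonpos (sub_nonpos.2 h)]
        linarith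
    refine h3.trans ?_
    rw [dist_split i]
    have h1 : 0 ≤ ∑ j ∈ Finset.univ.erase i, |x j - y j| := Finset.sum_nonneg (fun _ _ => abs_nonneg _)
    linarith
  have h1 := S.hB _ hlk
  have h2 := S.hA _ hlk
  have e1 : S.β (fun x : X d => cd i x - (2 / L) * F (x i)) = S.B - 2 / L * S.β (fun x => F (x i)) := by
    rw [S.sub (isLip_cd i) (hFl.const_mul _), S.smul hFl, S.B_eq hs]
  rw [e1] at h1 h2
  have hL2 : 0 < 2 / L := by positivity
  beta_reduce at h2
  unfold cd at h2
  rw [seg_same] at h2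
  constructor
  · by_contra hcon
    push Not at hcon
    nlinarith
  · by_contra hcon
    push Not at hcon
    have h3 : 0 < 2 / L * (S.β (fun x => F (x i)) - (F (q i + s) - F (q i))) := mul_pos hL2 (by linarith)
    linarith

/-- the basic estimate -/
theorem main (hs : 0 < s) {g : X d → ℝ} (hg : IsLip g) (D : ℝ) {W : ℝ → ℝ} {L : ℝ}
    (hW : ∀ u v, v ≤ u → 0 ≤ W u - W v ∧ W u - W v ≤ L * (u - v))
    (hgW : ∀ t t', 0 ≤ t' → t' ≤ t → t ≤ s →
      |(g (q + t • e i) - D * t) - (g (q + t' • e i) - D * t')| ≤ W t - W t') :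
    |S.β g - D * S.B| ≤ W s - W 0 := by
  have hL0 : 0 ≤ L := by
    have := hW 1 0 zero_le_one
    linarith [this.1, this.2]
  set π : ℝ → ℝ := fun u => pr (q i) s u - q i with hπ
  have hπ0 : ∀ u, 0 ≤ π u := fun u => by have := pr_ge (q i) s u; simp only [hπ]; linarith
  have hπs : ∀ u, π u ≤ s := fun u => by have := pr_le (l := q i) hs.le u; simp only [hπ]; linarith
  have hπsl : ∀ u v, v ≤ u → 0 ≤ π u - π v ∧ π u - π v ≤ u - v := by
    intro u v h
    have := pr_slope (l := q i) hs.le u v h
    simp only [hπ]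
    constructor <;> linarith [this.1, this.2]
  set H : ℝ → ℝ := fun t => g (q + t • e i) - D * t with hH
  -- the two monotone functions
  set F : ℝ → ℝ → ℝ := fun σ u => W (π u) + σ * H (π u) with hF
  have hFm : ∀ σ, |σ| = 1 → ∀ u v, v ≤ u → 0 ≤ F σ u - F σ v ∧ F σ u - F σ v ≤ (2 * L + 1) * (u - v) := by
    intro σ hσ u v huv
    have h1 := hπsl u v huv
    have h2 := hgW (π u) (π v) (hπ0 v) (by linarith [h1.1]) (hπs u)
    have h3 := hW (π u) (π v) (by linarith [h1.1])
    have h4 : |σ * (H (π u) - H (π v))| ≤ W (π u) - W (π v) := by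
      rw [abs_mul, hσ, one_mul]; exact h2
    rw [abs_le] at h4
    have h5 : W (π u) - W (π v) ≤ L * (u - v) := h3.2.trans (mul_le_mul_of_nonneg_left h1.2 hL0)
    have e1 : F σ u - F σ v = (W (π u) - W (π v)) + σ * (H (π u) - H (π v)) := by
      simp only [hF]; ring
    rw [e1]
    constructor
    · linarith [h4.1]
    · linarith [h4.2]
  have hp := S.mono hs (by linarith) (hFm 1 (by simp))
  have hm := S.mono hs (by linarith) (hFm (-1) (by simp))
  -- Lipschitz
  have hlip : ∀ σ, |σ| = 1 → IsLip (fun x : X d => F σ (x i)) := by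
    intro σ hσ
    refine ⟨2 * L + 1, by linarith, fun x y => ?_⟩
    have h1 : F σ (x i) - F σ (y i) ≤ (2 * L + 1) * |x i - y i| := by
      rcases le_total (y i) (x i) with h | h
      · rw [abs_of_nonneg (sub_nonneg.2 h)]; exact (hFm σ hσ _ _ h).2
      · have := (hFm σ hσ _ _ h).1
        have := mul_nonneg (show 0 ≤ 2 * L + 1 by linarith) (abs_nonneg (x i - y i))
        linarith
    refine h1.trans (mul_le_mul_of_nonneg_left ?_ (by linarith))
    rw [dist_split i]
    have h1 : 0 ≤ ∑ j ∈ Finset.univ.erase i, |x j - y j| := Finset.sum_nonneg (fun _ _ => abs_nonneg _)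
    linarith
  have hl1 := hlip 1 (by simp)
  have hl2 := hlip (-1) (by simp)
  -- the function `g - D x_i` on the segment
  have hk : S.β (fun x => (g x - D * cd i x) - (1 / 2 * F 1 (x i) + (-(1 / 2)) * F (-1) (x i)) + (D * q i) * 1) = 0 := by
    apply S.kill hs
    · exact ((hg.sub ((isLip_cd i).const_mul D)).sub (hl1.lin hl2 _ _)).add (isLip_const _)
    · intro t ht0 hts
      have e1 : π ((q + t • e i) i) = t := by
        rw [seg_same]
        simp only [hπ]
        rw [pr_self (by linarith) (by linarith)]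
        ring
      unfold cd
      simp only [hF, e1, hH]
      rw [seg_same]
      ring
  have hc0 : S.β (fun _ => (D * q i) * 1) = 0 := by
    have a1 : LK 1 (fun _ : X d => (0 : ℝ)) := fun x y => by
      rw [sub_zero, one_mul]; exact dist_nonneg
    have h1 : ∀ c : ℝ, S.β (fun _ => c) ≤ S.B := fun c => S.hB _ (fun x y => by
      rw [sub_self, one_mul]; exact dist_nonneg)
    have h2 : ∀ c n : ℝ, S.β (fun _ => n * c) = n * S.β (fun _ => c) := fun c n => S.smul (isLip_const c) n
    have h3 : ∀ c, S.β (fun _ => c) ≤ 0 := by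
      intro c
      by_contra hcon
      push Not at hcon
      have h4 := h1 ((|S.B| + 1) / S.β (fun _ => c) * c)
      rw [h2, div_mul_cancel₀ _ hcon.ne'] at h4
      have := le_abs_self S.B
      linarith
    have h5 := h3 (D * q i * 1)
    have h6 := h3 ((-1) * (D * q i * 1))
    rw [h2] at h6
    linarith
  rw [S.add ((hg.sub ((isLip_cd i).const_mul D)).sub (hl1.lin hl2 _ _)) (isLip_const _), hc0,
    S.sub (hg.sub ((isLip_cd i).const_mul D)) (hl1.lin hl2 _ _), S.lin hl1 hl2,
    S.sub hg ((isLip_cd i).const_mul D), S.smul (isLip_cd i), S.B_eq hs] at hk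
  have e2 : ∀ σ, F σ (q i + s) - F σ (q i) = (W s - W 0) + σ * (H s - H 0) := by
    intro σ
    have a1 : π (q i + s) = s := by
      simp only [hπ]
      rw [pr_gt hs.le le_rfl]; ring
    have a2 : π (q i) = 0 := by
      simp only [hπ]
      rw [pr_lt hs.le le_rfl]; ring
    simp only [hF]
    rw [a1, a2]
    ring
  rw [e2] at hp hm
  have h7 := hgW s 0 le_rfl hs.le le_rfl
  have h7' : |H s - H 0| ≤ W s - W 0 := h7
  rw [abs_le] at h7' ⊢
  constructor <;> linarith [h7'.1, h7'.2, hp.1, hp.2, hm.1, hm.2]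

end SegF

end Pool.Agent.K9h46.LO
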