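import Mathlib
import Pool.Agent.K9h46.LO.Seg

set_option autoImplicit false
set_option linter.unusedSectionVars false
set_option linter.unusedVariables false

open MeasureTheory Set Filter Topology

namespace Pool.Agent.K9h46.LO

open Pool.Agent.Helper23K9.LR

variable {d : ℕ}

/-- The pull-back by `T`. -/
noncomputable def U (T : FreeSpace (X d) ≃ₗᵢ[ℝ] FreeSpace (X d)) (f : X d → ℝ) : X d → ℝ := UT 0 T f

/-- The pull-back by the inverse of `T`. -/
noncomputable def J (T : FreeSpace (X d) ≃ₗᵢ[ℝ] FreeSpace (X d)) (f : X d → ℝ) : X d → ℝ := UT 0 T.symm f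

/-- the cutoff function -/
noncomputable def cut (a : X d) (r : ℝ) (x : X d) : ℝ := max (min (3 - dist x a / r) 1) 0

lemma cut_mem (a : X d) (r : ℝ) (x : X d) : 0 ≤ cut a r x ∧ cut a r x ≤ 1 :=
  ⟨le_max_right _ _, max_le (min_le_right _ _) zero_le_one⟩

lemma cut_one {a : X d} {r : ℝ} (hr : 0 < r) {x : X d} (h : dist x a ≤ 2 * r) : cut a r x = 1 := by
  unfold cut
  have : dist x a / r ≤ 2 := by rwa [div_le_iff₀ hr]
  rw [min_eq_right (by linarith), max_eq_left zero_le_one]

lemma cut_zero {a : X d} {r : ℝ} (hr : 0 < r) {x : X d} (h : 3 * r < dist x a) : cut a r x = 0 := by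
  unfold cut
  have : 3 ≤ dist x a / r := by rw [le_div_iff₀ hr]; exact h.le
  apply max_eq_right
  exact (min_le_left _ _).trans (by linarith)

lemma LK_dist (a : X d) : LK 1 (fun x => dist x a) := fun x y => by
  have := dist_triangle x y a
  linarith

lemma LK_cut (a : X d) {r : ℝ} (hr : 0 < r) : LK (1 / r) (cut a r) := by
  have h1 : LK (1 / r) (fun x => dist x a / r) := by
    have := (LK_dist a).const_mul (1 / r)
    rw [abs_of_pos (by positivity), mul_one] at this
    intro x y
    have h2 := this x y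
    beta_reduce at h2 ⊢
    calc dist x a / r - dist y a / r = 1 / r * dist x a - 1 / r * dist y a := by ring
      _ ≤ _ := h2
  have h2 : LK (1 / r) (fun x => 3 - dist x a / r) := by
    intro x y
    have := h1 y x
    rw [dist_comm] at this
    beta_reduce at this ⊢
    linarith
  have hc : ∀ c : ℝ, LK (1 / r) (fun _ : X d => c) := fun c x y => by
    have : 0 ≤ 1 / r * dist x y := by positivity
    linarith
  exact (h2.min (hc 1)).max (hc 0)

/-- the component of the increment away from the support of `ψ`, as a segment functional -/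
theorem conc (T : FreeSpace (X d) ≃ₗᵢ[ℝ] FreeSpace (X d)) {a q : X d} {r s : ℝ} (hr : 0 < r) (hs : 0 < s)
    {i : Fin d} {G₀ G : X d → ℝ} (hG₀ : IsLip G₀) (h0 : ∀ x, r < dist x a → G₀ x = 0)
    {D : ℝ} (hD : D ≠ 0) {W : ℝ → ℝ} {LW : ℝ}
    (hW : ∀ u v, v ≤ u → 0 ≤ W u - W v ∧ W u - W v ≤ LW * (u - v))
    (hgW : ∀ t t', 0 ≤ t' → t' ≤ t → t ≤ s →
      |(J T G₀ (q + t • e i) - D * t) - (J T G₀ (q + t' • e i) - D * t')| ≤ W t - W t')
    {L : ℝ} (hL : 0 ≤ L) (hG : LK L G) (hc : ∀ x y, dist x a ≤ 4 * r → dist y a ≤ 4 * r → G x = G y) :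
    |J T G (q + s • e i) - J T G q| ≤ L * ((W s - W 0) / |D|) := by
  set p := q + s • e i with hp
  have hpq : dist p q = s := by
    have := dist_seg q s 0 i
    rw [zero_smul, add_zero, sub_zero, abs_of_pos hs] at this
    exact this
  set μ := T.symm (mol p q) with hμ
  have hμn : ‖μ‖ = s := by rw [hμ, T.symm.norm_map, norm_mol, hpq]
  obtain ⟨Λ, h1, h2⟩ := hb hr μ
  rw [hμn] at h1
  have h1' : ∀ (Φ : Om (X d) r → ℝ) (C : ℝ), 0 ≤ C → (∀ w, |Φ w| ≤ C) → |Λ Φ| ≤ ‖μ‖ * C := by
    rw [hμn]; exact h1
  set ψ := cut a r with hψ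
  have hJ : ∀ F : X d → ℝ, J T F p - J T F q = fn F μ := fun F => UT_diff 0 T.symm F p q
  -- the functional
  let A : (X d → ℝ) → ℝ := fun F => Λ (fun w => ψ w.x * DQ r F w)
  let B : (X d → ℝ) → ℝ := fun F => Λ (fun w => (1 - ψ w.x) * DQ r F w)
  have hAB : ∀ F, IsLip F → A F + B F = fn F μ := by
    intro F hF
    show Λ _ + Λ _ = _
    rw [← map_add, ← h2 F hF]
    congr 1
    funext w
    rw [Pi.add_apply]
    ring
  have hAB2 : ∀ F₁ F₂ : X d → ℝ, LK 1 F₁ → LK 1 F₂ → |A F₁ + B F₂| ≤ s := by
    intro F₁ F₂ k1 k2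
    have := split_norm h1' (ψ := ψ) (cut_mem a r) zero_le_one k1 k2
    rwa [hμn, mul_one] at this
  have hBlin : ∀ (F₁ F₂ : X d → ℝ) (c₁ c₂ : ℝ), B (fun x => c₁ * F₁ x + c₂ * F₂ x) = c₁ * B F₁ + c₂ * B F₂ := by
    intro F₁ F₂ c₁ c₂
    show Λ _ = c₁ * Λ _ + c₂ * Λ _
    rw [← smul_eq_mul, ← smul_eq_mul, ← map_smul, ← map_smul, ← map_add]
    congr 1
    funext w
    rw [Pi.add_apply, Pi.smul_apply, Pi.smul_apply, smul_eq_mul, smul_eq_mul]
    unfold DQ
    ring
  have hAlin : ∀ (F₁ F₂ : X d → ℝ), A (fun x => F₁ x - F₂ x) = A F₁ - A F₂ := by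
    intro F₁ F₂
    show Λ _ = Λ _ - Λ _
    rw [← map_sub]
    congr 1
    funext w
    rw [Pi.sub_apply]
    unfold DQ
    ring
  have hUf : ∀ f : X d → ℝ, IsLip f → fn (U T f) μ = f p - f q := by
    intro f hf
    rw [← hJ]
    unfold J U
    rw [UT_symm 0 T hf, UT_symm 0 T hf]
    ring
  let S : SegF q i s :=
    { β := fun f => B (U T f)
      B := B (U T (cd i))
      lin := by
        intro f g hf hg a b
        rw [← hBlin]
        congr 1
        funext z
        exact UT_lin 0 T hf hg a b z
      hB := by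
        intro f hf
        have k1 := hAB2 (U T (cd i)) (U T f) (UT_LK 0 T (LK_cd i)) (UT_LK 0 T hf)
        have k2 := hAB (U T (cd i)) (UT_isLip 0 T (isLip_cd i))
        rw [hUf _ (isLip_cd i)] at k2
        have k3 : cd i p - cd i q = s := by
          unfold cd; rw [hp, seg_same]; ring
        rw [abs_le] at k1
        linarith [k1.2]
      hA := by
        intro f hf
        have k1 := hAB2 (U T f) (U T (cd i)) (UT_LK 0 T hf) (UT_LK 0 T (LK_cd i))
        have k2 := hAB (U T f) (UT_isLip 0 T (LK.isLip hf))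
        rw [hUf _ (LK.isLip hf)] at k2
        rw [abs_le] at k1
        linarith [k1.2]
      cont := by
        intro f f0 K hK0 hK hf0 hlim
        have hUlim : ∀ z, Tendsto (fun n => U T (f n) z) atTop (𝓝 (U T f0 z)) :=
          UT_tendsto 0 T hK (fun p q => (hlim p).sub (hlim q))
        have hUK : ∀ n, LK (K + K) (fun z => U T (f n) z - U T f0 z) := fun n =>
          LK.sub (UT_LK 0 T (hK n)) (UT_LK 0 T hf0)
        have hU0 : ∀ z, Tendsto (fun n => U T (f n) z - U T f0 z) atTop (𝓝 0) := by
          intro z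
          have := (hUlim z).sub_const (U T f0 z)
          rwa [sub_self] at this
        have k1 := cont_half hr h1' h2 (by positivity) (LK_cut a hr) (cut_mem a r) (a := a) (ρ := 3 * r)
          (fun x hx => cut_zero hr hx) (by positivity) hUK hU0
        have k2 : Tendsto (fun n => fn (fun z => U T (f n) z - U T f0 z) μ) atTop (𝓝 0) := by
          have e0 : fn (fun _ : X d => (0 : ℝ)) μ = 0 := by
            have := fn_le (M := X d) (K := 0) (f := fun _ => 0) (fun x y => by simp) μ
            rw [zero_mul] at this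
            exact abs_eq_zero.1 (le_antisymm this (abs_nonneg _))
          rw [← e0]
          apply fn_tendsto hUK
          intro x y
          have := (hU0 x).sub (hU0 y)
          simpa using this
        have k3 := k2.sub k1
        rw [sub_zero] at k3
        have k4 : ∀ n, fn (fun z => U T (f n) z - U T f0 z) μ -
            Λ (fun w => cut a r w.x * DQ r (fun z => U T (f n) z - U T f0 z) w) =
            B (U T (f n)) - B (U T f0) := by
          intro n
          have a1 := hAB _ (LK.isLip (hUK n))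
          have a2 := hBlin (U T (f n)) (U T f0) 1 (-1)
          have a3 : (fun x => 1 * U T (f n) x + -1 * U T f0 x) = fun z => U T (f n) z - U T f0 z := by
            funext z; ring
          rw [a3] at a2
          have a4 : A (fun z => U T (f n) z - U T f0 z) =
            Λ (fun w => cut a r w.x * DQ r (fun z => U T (f n) z - U T f0 z) w) := rfl
          rw [← a4]
          linarith
        have k5 : Tendsto (fun n => (B (U T (f n)) - B (U T f0)) + B (U T f0)) atTop (𝓝 (0 + B (U T f0))) :=
          (k3.congr k4).add_const _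
        simpa using k5 }
  -- the far part does not see `G₀`
  have hG₀B : B G₀ = 0 := by
    have : (fun w : Om (X d) r => (1 - ψ w.x) * DQ r G₀ w) = 0 := by
      funext w
      rw [Pi.zero_apply]
      by_cases hx : dist w.x a ≤ 2 * r
      · rw [hψ, cut_one hr hx]; ring
      · push Not at hx
        have k1 : G₀ w.x = 0 := h0 _ (by linarith)
        have k2 : G₀ w.y = 0 := by
          apply h0
          have := dist_triangle w.x w.y a
          have := w.le
          linarith
        unfold DQ
        rw [k1, k2]; ring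
    show Λ _ = 0
    rw [this, map_zero]
  -- `U (J F)` equals `F` up to a constant
  have hBc : ∀ (F : X d → ℝ), IsLip F → B (U T (J T F)) = B F := by
    intro F hF
    have : ∀ z, U T (J T F) z = F z - F 0 := fun z => UT_symm' 0 T hF z
    show Λ _ = Λ _
    congr 1
    funext w
    unfold DQ
    rw [this, this]
    ring
  have hJG : IsLip (J T G₀) := UT_isLip 0 T.symm hG₀
  have hm := S.main hs hJG D hW hgW
  have e1 : S.β (J T G₀) = B (U T (J T G₀)) := rfl
  rw [e1, hBc _ hG₀, hG₀B, zero_sub, abs_neg, abs_mul] at hm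
  -- `G` is only seen by the far part
  have hGA : A G = 0 := by
    have : (fun w : Om (X d) r => ψ w.x * DQ r G w) = 0 := by
      funext w
      rw [Pi.zero_apply]
      by_cases hx : 3 * r < dist w.x a
      · rw [hψ, cut_zero hr hx]; ring
      · push Not at hx
        have k2 : dist w.y a ≤ 4 * r := by
          have := dist_triangle w.y w.x a
          have h5 := w.le
          rw [dist_comm] at h5
          linarith
        unfold DQ
        rw [hc w.x w.y (by linarith) k2]; ring
    show Λ _ = 0
    rw [this, map_zero]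
  have hBG : |B G| ≤ S.B * L := by
    rcases hL.eq_or_lt with h3 | h3
    · rw [← h3]
      have k1 : ∀ c : ℝ, LK 1 (fun x => c * G x) := by
        intro c x y
        rw [← h3] at hG
        have k2 := (hG.const_mul c) x y
        rw [mul_zero, zero_mul] at k2
        have : (0 : ℝ) ≤ 1 * dist x y := by positivity
        linarith
      have k2 : ∀ c : ℝ, c * B G ≤ S.B := by
        intro c
        have a1 := hAB2 (U T (cd i)) _ (UT_LK 0 T (LK_cd i)) (k1 c)
        have a2 := hAB (U T (cd i)) (UT_isLip 0 T (isLip_cd i))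
        rw [hUf _ (isLip_cd i)] at a2
        have a3 : cd i p - cd i q = s := by
          unfold cd; rw [hp, seg_same]; ring
        rw [abs_le] at a1
        have a4 : B (fun x => c * G x) = c * B G := by
          have := hBlin G G c 0
          simpa using this
        have a5 : S.B = B (U T (cd i)) := rfl
        rw [a4] at a1
        linarith [a1.2]
      have k3 : B G = 0 := by
        by_contra hcon
        have := k2 ((|S.B| + 1) / B G)
        rw [div_mul_cancel₀ _ hcon] at this
        have := le_abs_self S.B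
        linarith
      rw [k3]; simp
    · have k1 : ∀ c : ℝ, |c| = 1 / L → c * B G ≤ S.B := by
        intro c hcc
        have k2 : LK 1 (fun x => c * G x) := by
          have := hG.const_mul c
          rwa [hcc, one_div_mul_cancel h3.ne'] at this
        have a1 := hAB2 (U T (cd i)) _ (UT_LK 0 T (LK_cd i)) k2
        have a2 := hAB (U T (cd i)) (UT_isLip 0 T (isLip_cd i))
        rw [hUf _ (isLip_cd i)] at a2
        have a3 : cd i p - cd i q = s := by
          unfold cd; rw [hp, seg_same]; ring
        rw [abs_le] at a1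
        have a4 : B (fun x => c * G x) = c * B G := by
          have := hBlin G G c 0
          simpa using this
        have a5 : S.B = B (U T (cd i)) := rfl
        rw [a4] at a1
        linarith [a1.2]
      have a1 := k1 (1 / L) (abs_of_pos (by positivity))
      have a2 := k1 (-(1 / L)) (by rw [abs_neg, abs_of_pos (by positivity)])
      rw [one_div, inv_mul_le_iff₀ h3] at a1
      have a3 : (1 / L) * (-B G) ≤ S.B := by linarith
      rw [one_div, inv_mul_le_iff₀ h3] at a3
      rw [abs_le]
      constructor <;> linarith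
  have hBnn : 0 ≤ S.B := by
    have k1 := S.hB (fun _ => 0) (fun x y => by rw [sub_self, one_mul]; exact dist_nonneg)
    have k2 : S.β (fun _ => 0) = 0 := by
      have := S.smul (isLip_const (M := X d) 0) 0
      simpa using this
    linarith
  rw [abs_of_nonneg hBnn] at hm
  rw [hJ]
  have hfin := hAB G (LK.isLip hG)
  rw [← hfin, hGA, zero_add]
  have hDpos : 0 < |D| := abs_pos.2 hD
  have h5 : S.B ≤ (W s - W 0) / |D| := by
    rw [le_div_iff₀ hDpos, mul_comm]; exact hm
  calc |B G| ≤ S.B * L := hBG
    _ ≤ (W s - W 0) / |D| * L := mul_le_mul_of_nonneg_right h5 hL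
    _ = _ := by ring

/-- the localised estimate -/
theorem local_est (T : FreeSpace (X d) ≃ₗᵢ[ℝ] FreeSpace (X d)) {a q : X d} {r s : ℝ} (hr : 0 < r) (hs : 0 < s)
    {i : Fin d} {G₀ G : X d → ℝ} (hG₀ : IsLip G₀) (h0 : ∀ x, r < dist x a → G₀ x = 0)
    {D : ℝ} (hD : D ≠ 0) {W : ℝ → ℝ} {LW : ℝ}
    (hW : ∀ u v, v ≤ u → 0 ≤ W u - W v ∧ W u - W v ≤ LW * (u - v))
    (hgW : ∀ t t', 0 ≤ t' → t' ≤ t → t ≤ s →
      |(J T G₀ (q + t • e i) - D * t) - (J T G₀ (q + t' • e i) - D * t')| ≤ W t - W t')
    {L ε : ℝ} (hL : 0 ≤ L) (hε : 0 ≤ ε) (hG : LK L G)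
    (hc : ∀ x y, dist x a ≤ 4 * r → dist y a ≤ 4 * r → |G x - G y| ≤ ε * dist x y) :
    |J T G (q + s • e i) - J T G q| ≤ ε * s + (L + ε) * ((W s - W 0) / |D|) := by
  -- the extension
  have h1 : LipschitzOnWith ε.toNNReal G (Metric.closedBall a (4 * r)) := by
    apply LipschitzOnWith.of_dist_le_mul
    intro x hx y hy
    rw [Real.dist_eq, Real.coe_toNNReal _ hε]
    exact hc x y hx hy
  obtain ⟨k, hk1, hk2⟩ := h1.extend_real
  have hk : LK ε k := by
    intro x y
    have := hk1.dist_le_mul x y
    rw [Real.dist_eq, Real.coe_toNNReal _ hε] at this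
    exact (le_abs_self _).trans this
  have h2 := conc T hr hs hG₀ h0 hD hW hgW (L := L + ε) (by positivity) (LK.sub hG hk) (by
    intro x y hx hy
    rw [hk2 hx, hk2 hy]; ring)
  have h3 : ∀ z, J T (fun x => G x - k x) z = J T G z - J T k z := fun z =>
    UT_sub 0 T.symm (LK.isLip hG) (LK.isLip hk) z
  rw [h3, h3] at h2
  have h4 := (UT_LK 0 T.symm hk).abs (q + s • e i) q
  have hpq : dist (q + s • e i) q = s := by
    have := dist_seg q s 0 i
    rw [zero_smul, add_zero, sub_zero, abs_of_pos hs] at this
    exact this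
  rw [hpq] at h4
  have h4' : |J T k (q + s • e i) - J T k q| ≤ ε * s := h4
  have e1 : J T G (q + s • e i) - J T G q = (J T k (q + s • e i) - J T k q) +
    (J T G (q + s • e i) - J T k (q + s • e i) - (J T G q - J T k q)) := by ring
  rw [e1]
  refine (abs_add_le _ _).trans ?_
  linarith

end Pool.Agent.K9h46.LO
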