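import Mathlib
import Pool.Agent.K9h46.LO.Conc

set_option autoImplicit false
set_option linter.unusedSectionVars false
set_option linter.unusedVariables false

open MeasureTheory Set Filter Topology

namespace Pool.Agent.K9h46.LO

open Pool.Agent.Helper23K9.LR

variable {d : ℕ}

/-- the Haar measure -/
noncomputable abbrev mu (d : ℕ) : Measure (X d) := Measure.addHaar

/-- directional derivatives -/
noncomputable def pd (v : X d) (g : X d → ℝ) (x : X d) : ℝ := lineDeriv ℝ g x v

lemma IsLip.continuous {M : Type*} [PseudoMetricSpace M] {f : M → ℝ} (h : IsLip f) : Continuous f := by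
  obtain ⟨K, -, hK⟩ := h
  exact hK.continuous

lemma pd_meas {g : X d → ℝ} (hg : IsLip g) (v : X d) : Measurable (pd v g) :=
  measurable_lineDeriv hg.continuous

lemma pd_bound {g : X d → ℝ} {K : ℝ} (hK0 : 0 ≤ K) (hg : LK K g) (v x : X d) : |pd v g x| ≤ K * ‖v‖ := by
  have := norm_lineDeriv_le_of_lipschitz ℝ (x₀ := x) (v := v) hg.lipschitz
  rw [Real.norm_eq_abs, Real.coe_toNNReal _ hK0] at this
  exact this

lemma pd_deriv (g : X d → ℝ) (v q : X d) (τ : ℝ) :
    deriv (fun t : ℝ => g (q + t • v)) τ = pd v g (q + τ • v) := by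
  unfold pd lineDeriv
  have h1 := deriv_comp_const_add (f := fun t : ℝ => g (q + t • v)) τ 0
  rw [add_zero] at h1
  rw [← h1]
  congr 1
  funext t
  rw [add_smul, add_assoc]

lemma LK_line {g : X d → ℝ} {K : ℝ} (hK0 : 0 ≤ K) (hg : LK K g) (v q : X d) :
    LK (K * ‖v‖) (fun t : ℝ => g (q + t • v)) := by
  intro t t'
  have := hg (q + t • v) (q + t' • v)
  rw [dist_eq_norm, show q + t • v - (q + t' • v) = (t - t') • v by rw [sub_smul]; abel, norm_smul] at this
  rw [Real.dist_eq]
  rw [Real.norm_eq_abs] at this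
  beta_reduce
  linarith

lemma pd_ftc {g : X d → ℝ} (hg : IsLip g) (v q : X d) (t' t : ℝ) :
    ∫ τ in t'..t, pd v g (q + τ • v) = g (q + t • v) - g (q + t' • v) := by
  obtain ⟨K, hK0, hK⟩ := hg
  have h1 : (fun τ : ℝ => pd v g (q + τ • v)) = deriv (fun t : ℝ => g (q + t • v)) := by
    funext τ
    rw [pd_deriv]
  rw [h1]
  apply AbsolutelyContinuousOnInterval.integral_deriv_eq_sub
  exact ((LK_line hK0 hK v q).lipschitz.lipschitzOnWith).absolutelyContinuousOnInterval

lemma line_cont (v q : X d) : Continuous (fun τ : ℝ => q + τ • v) := by fun_prop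

lemma pd_int {g : X d → ℝ} (hg : IsLip g) (v q : X d) (t' t : ℝ) :
    IntervalIntegrable (fun τ : ℝ => pd v g (q + τ • v)) volume t' t := by
  obtain ⟨K, hK0, hK⟩ := hg
  have hm : Measurable (fun τ : ℝ => pd v g (q + τ • v)) := (pd_meas ⟨K, hK0, hK⟩ v).comp (line_cont v q).measurable
  rw [intervalIntegrable_iff]
  apply Measure.integrableOn_of_bounded (M := K * ‖v‖)
  · rw [uIoc, Real.volume_Ioc]; exact ENNReal.ofReal_ne_top
  · exact hm.aestronglyMeasurable
  · filter_upwards with τ
    exact pd_bound hK0 hK v _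

/-- the localised estimate with an average oscillation -/
theorem local_est' (T : FreeSpace (X d) ≃ₗᵢ[ℝ] FreeSpace (X d)) {a q : X d} {r s : ℝ} (hr : 0 < r) (hs : 0 < s)
    {i : Fin d} {G₀ G : X d → ℝ} (hG₀ : IsLip G₀) (h0 : ∀ x, r < dist x a → G₀ x = 0)
    {D : ℝ} (hD : D ≠ 0) {ω : ℝ} (hω : ∫ τ in (0 : ℝ)..s, |pd (e i) (J T G₀) (q + τ • e i) - D| ≤ ω)
    {L ε : ℝ} (hL : 0 ≤ L) (hε : 0 ≤ ε) (hG : LK L G)
    (hc : ∀ x y, dist x a ≤ 4 * r → dist y a ≤ 4 * r → |G x - G y| ≤ ε * dist x y) :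
    |J T G (q + s • e i) - J T G q| ≤ ε * s + (L + ε) * (ω / |D|) := by
  have hJ : IsLip (J T G₀) := UT_isLip 0 T.symm hG₀
  obtain ⟨K, hK0, hK⟩ := hJ
  have hJ : IsLip (J T G₀) := ⟨K, hK0, hK⟩
  set u : ℝ → ℝ := fun τ => |pd (e i) (J T G₀) (q + τ • e i) - D| with hu
  have hint : ∀ a b, IntervalIntegrable u volume a b := fun a b =>
    ((pd_int hJ (e i) q a b).sub intervalIntegrable_const).abs
  set W : ℝ → ℝ := fun t => ∫ τ in (0 : ℝ)..t, u τ with hWdef
  have hWd : ∀ a b, W b - W a = ∫ τ in a..b, u τ := fun a b =>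
    intervalIntegral.integral_interval_sub_left (hint _ _) (hint _ _)
  have hub : ∀ τ, u τ ≤ K + |D| := by
    intro τ
    have h1 := pd_bound hK0 hK (e i) (q + τ • e i)
    rw [norm_e, mul_one] at h1
    have h2 := abs_sub (pd (e i) (J T G₀) (q + τ • e i)) D
    simp only [hu]
    linarith
  have hW : ∀ x v, v ≤ x → 0 ≤ W x - W v ∧ W x - W v ≤ (K + |D|) * (x - v) := by
    intro x v hvx
    rw [hWd]
    constructor
    · exact intervalIntegral.integral_nonneg hvx (fun τ _ => abs_nonneg _)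
    · calc ∫ τ in v..x, u τ ≤ ∫ τ in v..x, (K + |D|) := by
            apply intervalIntegral.integral_mono_on hvx (hint _ _) intervalIntegrable_const
            intro τ _
            exact hub τ
        _ = (K + |D|) * (x - v) := by rw [intervalIntegral.integral_const, smul_eq_mul]; ring
  have hgW : ∀ t t', 0 ≤ t' → t' ≤ t → t ≤ s →
      |(J T G₀ (q + t • e i) - D * t) - (J T G₀ (q + t' • e i) - D * t')| ≤ W t - W t' := by
    intro t t' _ htt _
    rw [hWd]
    have e1 : (J T G₀ (q + t • e i) - D * t) - (J T G₀ (q + t' • e i) - D * t') =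
        ∫ τ in t'..t, (pd (e i) (J T G₀) (q + τ • e i) - D) := by
      rw [intervalIntegral.integral_sub (pd_int hJ _ _ _ _) intervalIntegrable_const, pd_ftc hJ]
      simp
      ring
    rw [e1]
    exact intervalIntegral.abs_integral_le_integral_abs htt
  have h1 := local_est T hr hs hG₀ h0 hD hW hgW hL hε hG hc
  refine h1.trans ?_
  have h2 : W s - W 0 ≤ ω := by rw [hWd]; exact hω
  have h3 : 0 < |D| := abs_pos.2 hD
  have h4 : (W s - W 0) / |D| ≤ ω / |D| := div_le_div_of_nonneg_right h2 h3.le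
  have := mul_le_mul_of_nonneg_left h4 (show 0 ≤ L + ε by linarith)
  linarith

/-- Lebesgue points of the directional derivatives -/
def Leb (g : X d → ℝ) (x : X d) : Prop := ∀ i : Fin d,
  Tendsto (fun ρ => ⨍ y in Metric.closedBall x ρ, |pd (e i) g y - pd (e i) g x| ∂(mu d)) (𝓝[>] 0) (𝓝 0)

lemma ae_Leb {g : X d → ℝ} (hg : IsLip g) : ∀ᵐ x ∂(mu d), Leb g x := by
  obtain ⟨K, hK0, hK⟩ := hg
  unfold Leb
  rw [ae_all_iff]
  intro i
  have hloc : LocallyIntegrable (pd (e i) g) (mu d) := by
    intro x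
    refine ⟨Metric.closedBall x 1, Metric.closedBall_mem_nhds x one_pos, ?_⟩
    apply Measure.integrableOn_of_bounded (M := K * ‖(e i : X d)‖)
    · exact measure_closedBall_lt_top.ne
    · exact (pd_meas ⟨K, hK0, hK⟩ _).aestronglyMeasurable
    · filter_upwards with τ
      exact pd_bound hK0 hK _ _
  have h1 := IsUnifLocDoublingMeasure.ae_tendsto_average_norm_sub (mu d) hloc 1
  filter_upwards [h1] with x hx
  have h2 := hx (fun _ : ℝ => x) (fun ρ : ℝ => ρ) (l := 𝓝[>] 0) tendsto_id (by
    filter_upwards [self_mem_nhdsWithin] with ρ hρ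
    have : (0 : ℝ) < ρ := hρ
    rw [one_mul]
    exact Metric.mem_closedBall_self this.le)
  exact h2

/-- translation of a ball -/
lemma ball_shift {u : X d → ℝ} (hu : Measurable u) {C : ℝ} (h0 : ∀ x, 0 ≤ u x) (hC : ∀ x, u x ≤ C)
    (x₀ z : X d) {s : ℝ} (hz : ‖z‖ ≤ 2 * s) :
    ∫ y in Metric.closedBall x₀ s, u (y + z) ∂(mu d) ≤ ∫ y in Metric.closedBall x₀ (3 * s), u y ∂(mu d) := by
  have e1 : ∫ y in Metric.closedBall x₀ s, u (y + z) ∂(mu d) = ∫ y in Metric.closedBall (x₀ + z) s, u y ∂(mu d) := by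
    rw [← integral_indicator Metric.isClosed_closedBall.measurableSet,
      ← integral_indicator Metric.isClosed_closedBall.measurableSet,
      ← integral_add_right_eq_self ((Metric.closedBall (x₀ + z) s).indicator u) z]
    congr 1
    funext y
    by_cases hy : y ∈ Metric.closedBall x₀ s
    · rw [indicator_of_mem hy, indicator_of_mem]
      rw [Metric.mem_closedBall, dist_add_right]
      exact hy
    · rw [indicator_of_notMem hy, indicator_of_notMem]
      rw [Metric.mem_closedBall, dist_add_right]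
      exact hy
  rw [e1]
  apply setIntegral_mono_set
  · apply Measure.integrableOn_of_bounded (M := C)
    · exact measure_closedBall_lt_top.ne
    · exact hu.aestronglyMeasurable
    · filter_upwards with y
      rw [Real.norm_eq_abs, abs_of_nonneg (h0 y)]
      exact hC y
  · filter_upwards with y
    exact h0 y
  · apply LE.le.eventuallyLE
    apply Metric.closedBall_subset_closedBall'
    rw [dist_eq_norm, add_sub_cancel_left]
    linarith

/-- good positions of finitely many segments -/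
theorem good_pos {ι : Type*} (I : Finset ι) {u : ι → X d → ℝ} {w v : ι → X d} {C : ℝ}
    (hu : ∀ k, Measurable (u k)) (h0 : ∀ k x, 0 ≤ u k x) (hC : ∀ k x, u k x ≤ C)
    (hw : ∀ k, ‖w k‖ ≤ 1) (hv : ∀ k, ‖v k‖ ≤ 1) {x₀ : X d}
    (hL : ∀ k, Tendsto (fun ρ => ⨍ y in Metric.closedBall x₀ ρ, u k y ∂(mu d)) (𝓝[>] 0) (𝓝 0))
    {η : ℝ} (hη : 0 < η) :
    ∃ s : ℝ, 0 < s ∧ ∃ y : X d, ∀ k ∈ I, ∫ t in (0 : ℝ)..s, u k (y + s • w k + t • v k) ≤ η * s := by
  classical
  set c : ℝ := 3 ^ d * (I.card + 1) with hc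
  have hc0 : 0 < c := by positivity
  -- the scale
  have h1 : ∀ᶠ ρ in 𝓝[>] (0 : ℝ), ∀ k ∈ I, ⨍ y in Metric.closedBall x₀ ρ, u k y ∂(mu d) ≤ η / c := by
    rw [eventually_all_finset]
    intro k _
    exact (hL k).eventually (ge_mem_nhds (show 0 < η / c by positivity))
  have h2 : ∀ᶠ ρ in 𝓝[>] (0 : ℝ), 0 < ρ := self_mem_nhdsWithin
  obtain ⟨ρ, hρ1, hρ0⟩ := (h1.and h2).exists
  set s := ρ / 3 with hs
  have hs0 : 0 < s := by positivity
  have hρs : ρ = 3 * s := by rw [hs]; ring
  refine ⟨s, hs0, ?_⟩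
  set B := Metric.closedBall x₀ s with hB
  have hBm : MeasurableSet B := Metric.isClosed_closedBall.measurableSet
  have hB0 : (mu d) B ≠ 0 := (Metric.measure_closedBall_pos _ _ hs0).ne'
  have hBt : (mu d) B ≠ ⊤ := measure_closedBall_lt_top.ne
  have _ : IsFiniteMeasure ((mu d).restrict B) := ⟨by rw [Measure.restrict_apply_univ]; exact measure_closedBall_lt_top⟩
  have hmeas : ∀ k, Measurable (fun X : X d × ℝ => u k (X.1 + s • w k + X.2 • v k)) := by
    intro k
    apply (hu k).comp
    have : Continuous (fun X : X d × ℝ => X.1 + s • w k + X.2 • v k) := by fun_prop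
    exact this.measurable
  have hprod : ∀ k, Integrable (fun X : X d × ℝ => u k (X.1 + s • w k + X.2 • v k))
      (((mu d).restrict B).prod (volume.restrict (Ioc 0 s))) := by
    intro k
    apply Integrable.of_bound (hmeas k).aestronglyMeasurable C
    filter_upwards with X
    rw [Real.norm_eq_abs, abs_of_nonneg (h0 _ _)]
    exact hC _ _
  set F : X d → ℝ := fun y => ∑ k ∈ I, ∫ t in Ioc 0 s, u k (y + s • w k + t • v k) with hF
  have hFi : IntegrableOn F B (mu d) := by
    apply integrable_finsetSum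
    intro k _
    exact (hprod k).integral_prod_left
  obtain ⟨y, hyB, hy⟩ := exists_le_setAverage hB0 hBt hFi
  refine ⟨y, ?_⟩
  -- the average
  have h3 : ∫ y in B, F y ∂(mu d) = ∑ k ∈ I, ∫ t in Ioc 0 s, ∫ y in B, u k (y + s • w k + t • v k) ∂(mu d) := by
    rw [hF, integral_finsetSum]
    · apply Finset.sum_congr rfl
      intro k _
      exact integral_integral_swap (hprod k)
    · intro k _
      exact (hprod k).integral_prod_left
  have h4 : ∀ k ∈ I, ∫ t in Ioc 0 s, ∫ y in B, u k (y + s • w k + t • v k) ∂(mu d) ≤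
      s * ∫ y in Metric.closedBall x₀ (3 * s), u k y ∂(mu d) := by
    intro k _
    have e1 : s * ∫ y in Metric.closedBall x₀ (3 * s), u k y ∂(mu d) =
        ∫ t in Ioc 0 s, ∫ y in Metric.closedBall x₀ (3 * s), u k y ∂(mu d) := by
      rw [setIntegral_const, Real.volume_real_Ioc_of_le hs0.le, sub_zero, smul_eq_mul]
    rw [e1]
    apply setIntegral_mono_on (hprod k).integral_prod_right (integrableOn_const (by rw [Real.volume_Ioc]; exact ENNReal.ofReal_ne_top)) measurableSet_Ioc
    intro t ht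
    have h5 : ∀ y : X d, y + s • w k + t • v k = y + (s • w k + t • v k) := fun y => by abel
    simp only [h5]
    apply ball_shift (hu k) (h0 k) (hC k)
    refine (norm_add_le _ _).trans ?_
    rw [norm_smul, norm_smul, Real.norm_eq_abs, Real.norm_eq_abs, abs_of_pos hs0, abs_of_pos ht.1]
    have a1 := mul_le_mul_of_nonneg_left (hw k) hs0.le
    have a2 := mul_le_mul ht.2 (hv k) (norm_nonneg _) hs0.le
    linarith
  have hvol : (mu d).real (Metric.closedBall x₀ (3 * s)) = 3 ^ d * (mu d).real B := by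
    rw [hB]
    unfold Measure.real
    rw [Measure.addHaar_closedBall _ _ (by positivity), Measure.addHaar_closedBall _ _ hs0.le,
      ENNReal.toReal_mul, ENNReal.toReal_mul, ENNReal.toReal_ofReal (by positivity), ENNReal.toReal_ofReal (by positivity)]
    have : Module.finrank ℝ (X d) = d := by
      rw [(WithLp.linearEquiv 1 ℝ (Fin d → ℝ)).finrank_eq, Module.finrank_fin_fun]
    rw [this, mul_pow]
    ring
  have hBr : 0 < (mu d).real B := ENNReal.toReal_pos hB0 hBt
  have h5 : ∀ k ∈ I, ∫ y in Metric.closedBall x₀ (3 * s), u k y ∂(mu d) ≤ η / c * (3 ^ d * (mu d).real B) := by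
    intro k hk
    have h6 := hρ1 k hk
    rw [hρs, setAverage_eq, smul_eq_mul, hvol, inv_mul_le_iff₀ (by positivity)] at h6
    linarith
  have h6 : F y ≤ η * s := by
    refine hy.trans ?_
    rw [setAverage_eq, smul_eq_mul, inv_mul_le_iff₀ hBr, h3]
    calc ∑ k ∈ I, ∫ t in Ioc 0 s, ∫ y in B, u k (y + s • w k + t • v k) ∂(mu d)
        ≤ ∑ k ∈ I, s * (η / c * (3 ^ d * (mu d).real B)) :=
          Finset.sum_le_sum fun k hk => (h4 k hk).trans (mul_le_mul_of_nonneg_left (h5 k hk) hs0.le)
      _ = I.card * (s * (η / c * (3 ^ d * (mu d).real B))) := by rw [Finset.sum_const, nsmul_eq_mul]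
      _ = (I.card * 3 ^ d / c) * ((mu d).real B * (η * s)) := by ring
      _ ≤ 1 * ((mu d).real B * (η * s)) := by
          apply mul_le_mul_of_nonneg_right _ (by positivity)
          rw [div_le_one hc0, hc]
          have : (0 : ℝ) < 3 ^ d := by positivity
          nlinarith
      _ = (mu d).real B * (η * s) := by ring
  intro k hk
  rw [intervalIntegral.integral_of_le hs0.le]
  refine le_trans ?_ h6
  rw [hF]
  exact Finset.single_le_sum (f := fun k => ∫ t in Ioc 0 s, u k (y + s • w k + t • v k))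
    (fun k _ => integral_nonneg (fun t => h0 _ _)) hk

end Pool.Agent.K9h46.LO
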