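import Mathlib
import Pool.Agent.K9h46.LO.Leb

set_option autoImplicit false
set_option linter.unusedSectionVars false
set_option linter.unusedVariables false

open MeasureTheory Set Filter Topology

namespace Pool.Agent.K9h46.LO

open Pool.Agent.Helper23K9.LR

variable {d : ℕ}

/-- the Lipschitz functions supported in a ball of radius `r` -/
def GG (d : ℕ) (r : ℝ) : Set (X d → ℝ) := {G | IsLip G ∧ ∃ a, ∀ x, r < dist x a → G x = 0}

lemma mem_span_aux {r : ℝ} (hr : 0 < r) (t : Finset (X d)) : ∀ (F : X d → ℝ) (C : ℝ), 0 ≤ C → IsLip F →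
    (∀ x, |F x| ≤ C) → (∀ x, (∀ a ∈ t, r / 2 ≤ dist x a) → F x = 0) → F ∈ Submodule.span ℝ (GG d r) := by
  classical
  induction t using Finset.induction_on with
  | empty =>
    intro F C _ _ _ h
    have : F = 0 := by
      funext x
      exact h x (by simp)
    rw [this]
    exact Submodule.zero_mem _
  | insert a t ha ih =>
    intro F C hC0 hF hC h
    obtain ⟨K, hK0, hK⟩ := hF
    have hr3 : 0 < r / 3 := by positivity
    have h1 : IsLip (fun x => cut a (r / 3) x * F x) :=
      LK.isLip (mulLK hK (LK_cut a hr3) hK0 (by positivity) hC0 (cut_mem a _) (fun x _ => hC x))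
    have h2 : IsLip (fun x => F x - cut a (r / 3) x * F x) := IsLip.sub ⟨K, hK0, hK⟩ h1
    have e1 : F = (fun x => cut a (r / 3) x * F x) + (fun x => F x - cut a (r / 3) x * F x) := by
      funext x
      rw [Pi.add_apply]; ring
    rw [e1]
    apply Submodule.add_mem
    · apply Submodule.subset_span
      refine ⟨h1, a, fun x hx => ?_⟩
      show cut a (r / 3) x * F x = 0
      rw [cut_zero hr3 (by linarith), zero_mul]
    · apply ih _ C hC0 h2
      · intro x
        have h3 := cut_mem a (r / 3) x
        have e2 : F x - cut a (r / 3) x * F x = (1 - cut a (r / 3) x) * F x := by ring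
        rw [e2, abs_mul, abs_of_nonneg (by linarith [h3.2])]
        have := hC x
        nlinarith [abs_nonneg (F x), h3.1]
      · intro x hx
        by_cases hxa : r / 2 ≤ dist x a
        · have : F x = 0 := by
            apply h
            intro b hb
            rcases Finset.mem_insert.1 hb with rfl | hb
            · exact hxa
            · exact hx b hb
          rw [this]; ring
        · push Not at hxa
          rw [cut_one hr3 (by linarith)]; ring

lemma mem_span {r : ℝ} (hr : 0 < r) {F : X d → ℝ} (hF : IsLip F) {C : ℝ} (hC0 : 0 ≤ C) (hC : ∀ x, |F x| ≤ C)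
    {R : ℝ} (h : ∀ x, R < dist x 0 → F x = 0) : F ∈ Submodule.span ℝ (GG d r) := by
  obtain ⟨t, -, htf, ht⟩ := (isCompact_closedBall (0 : X d) R).finite_cover_balls (e := r / 2) (by positivity)
  apply mem_span_aux hr htf.toFinset F C hC0 hF hC
  intro x hx
  apply h
  by_contra hcon
  push Not at hcon
  have h2 := ht (Metric.mem_closedBall.2 hcon)
  simp only [mem_iUnion, Metric.mem_ball, exists_prop] at h2
  obtain ⟨z, hz, hxz⟩ := h2
  have := hx z (htf.mem_toFinset.2 hz)
  linarith

/-- truncation -/
noncomputable def trunc (c : X d) (R : ℝ) (F : X d → ℝ) (x : X d) : ℝ :=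
  max (min (F x) (max (2 * R - dist x c) 0)) (- max (2 * R - dist x c) 0)

lemma LK_trunc (c : X d) {F : X d → ℝ} (hF : LK 1 F) (R : ℝ) : LK 1 (trunc c R F) := by
  have h1 : LK 1 (fun x : X d => max (2 * R - dist x c) 0) := by
    have e1 : LK 1 (fun x : X d => 2 * R - dist x c) := by
      intro x y
      have := LK_dist c y x
      rw [dist_comm y x] at this
      beta_reduce at this ⊢
      linarith
    have e2 : LK 1 (fun _ : X d => (0 : ℝ)) := fun x y => by
      rw [sub_self, one_mul]; exact dist_nonneg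
    exact e1.max e2
  exact (hF.min h1).max h1.neg

lemma trunc_eq {c : X d} {F : X d → ℝ} (hF : LK 1 F) (h0 : F c = 0) {R : ℝ} {x : X d} (hx : dist x c ≤ R) :
    trunc c R F x = F x := by
  have h1 := hF.abs x c
  rw [h0, sub_zero, one_mul] at h1
  have h2 : |F x| ≤ max (2 * R - dist x c) 0 := h1.trans (le_trans (by linarith) (le_max_left _ _))
  rw [abs_le] at h2
  unfold trunc
  rw [min_eq_left h2.2, max_eq_left h2.1]

lemma trunc_zero {c : X d} {F : X d → ℝ} {R : ℝ} {x : X d} (hx : 2 * R < dist x c) : trunc c R F x = 0 := by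
  unfold trunc
  rw [max_eq_right (show 2 * R - dist x c ≤ 0 by linarith), neg_zero]
  exact max_eq_right (min_le_right _ _)

lemma trunc_bd (c : X d) (F : X d → ℝ) (R : ℝ) (x : X d) : |trunc c R F x| ≤ |2 * R| := by
  have h1 : max (2 * R - dist x c) 0 ≤ |2 * R| := by
    apply max_le _ (abs_nonneg _)
    have := le_abs_self (2 * R)
    have := dist_nonneg (x := x) (y := c)
    linarith
  have h0 : 0 ≤ max (2 * R - dist x c) 0 := le_max_right _ _
  unfold trunc
  rw [abs_le]
  constructor
  · refine le_trans ?_ (le_max_right _ _)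
    linarith
  · apply max_le ((min_le_right _ _).trans h1)
    linarith

/-- Density points: the average of the indicator of the complement tends to zero. -/
lemma ae_density (P : Set (X d)) (hP : MeasurableSet P) : ∀ᵐ x ∂(mu d), x ∈ P →
    Tendsto (fun ρ => ⨍ y in Metric.closedBall x ρ, Pᶜ.indicator (fun _ => (1 : ℝ)) y ∂(mu d)) (𝓝[>] 0) (𝓝 0) := by
  have hloc : LocallyIntegrable (Pᶜ.indicator (fun _ => (1 : ℝ))) (mu d) :=
    (locallyIntegrable_const (1 : ℝ)).indicator hP.compl
  have h1 := IsUnifLocDoublingMeasure.ae_tendsto_average_norm_sub (mu d) hloc 1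
  filter_upwards [h1] with x hx hxP
  have h2 := hx (fun _ : ℝ => x) (fun ρ : ℝ => ρ) (l := 𝓝[>] 0) tendsto_id (by
    filter_upwards [self_mem_nhdsWithin] with ρ hρ
    have : (0 : ℝ) < ρ := hρ
    rw [one_mul]
    exact Metric.mem_closedBall_self this.le)
  have h3 : ∀ y, ‖Pᶜ.indicator (fun _ => (1 : ℝ)) y - Pᶜ.indicator (fun _ => (1 : ℝ)) x‖ =
      Pᶜ.indicator (fun _ => (1 : ℝ)) y := by
    intro y
    have : Pᶜ.indicator (fun _ => (1 : ℝ)) x = 0 := indicator_of_notMem (by simpa using hxP) _
    rw [this, sub_zero, Real.norm_eq_abs, abs_of_nonneg]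
    exact indicator_nonneg (fun _ _ => zero_le_one) y
  simpa only [h3] using h2

/-- non-vanishing -/
theorem nonvanish (T : FreeSpace (X d) ≃ₗᵢ[ℝ] FreeSpace (X d)) (i : Fin d) {r : ℝ} (hr : 0 < r) :
    ∀ᵐ x ∂(mu d), ∃ (a : X d) (G₀ : X d → ℝ), IsLip G₀ ∧ (∀ x, r < dist x a → G₀ x = 0) ∧
      Leb (J T G₀) x ∧ pd (e i) (J T G₀) x ≠ 0 := by
  set b : X d → ℝ := U T (cd i) with hb
  have hb1 : LK 1 b := UT_LK 0 T (LK_cd i)
  have hb0 : b 0 = 0 := UT_zero 0 T _
  have hbR : ∀ R : ℕ, IsLip (trunc 0 (R : ℝ) b) := fun R => LK.isLip (LK_trunc 0 hb1 _)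
  -- the countable family
  have hspan : ∀ R : ℕ, trunc 0 (R : ℝ) b ∈ Submodule.span ℝ (GG d r) := fun R =>
    mem_span hr (hbR R) (abs_nonneg _) (trunc_bd 0 b R) (fun x hx => trunc_zero hx)
  choose t ht1 ht2 using fun R => Submodule.mem_span_finite_of_mem_span (hspan R)
  set 𝒢 : Set (X d → ℝ) := ⋃ R : ℕ, (t R : Set (X d → ℝ)) with h𝒢
  have hcount : 𝒢.Countable := countable_iUnion fun R => (t R).countable_toSet
  have h𝒢lip : ∀ G ∈ 𝒢, IsLip G := by
    intro G hG
    obtain ⟨R, hR⟩ := mem_iUnion.1 hG
    exact (ht1 R hR).1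
  -- the exceptional set
  set P : Set (X d) := {x | ∀ R : ℕ, pd (e i) (J T (trunc 0 (R : ℝ) b)) x = 0} with hP
  have hPm : MeasurableSet P := by
    rw [hP, ofPred_forall]
    apply MeasurableSet.iInter
    intro R
    exact measurableSet_eq_fun (pd_meas (UT_isLip 0 T.symm (hbR R)) _) measurable_const
  have hPnull : ∀ᵐ x ∂(mu d), x ∉ P := by
    filter_upwards [ae_density P hPm] with x hx hxP
    obtain ⟨s, hs0, y, hy⟩ := good_pos (d := d) ({0} : Finset (Fin 1)) (u := fun _ => Pᶜ.indicator (fun _ => (1 : ℝ)))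
      (w := fun _ => 0) (v := fun _ => e i) (C := 1) (x₀ := x)
      (fun _ => (measurable_const.indicator hPm.compl))
      (fun _ y => indicator_nonneg (fun _ _ => zero_le_one) y)
      (fun _ y => indicator_le_self' (fun _ _ => zero_le_one) y)
      (fun _ => by simp) (fun _ => by rw [norm_e]) (fun _ => hx hxP) (η := 1 / 2) (by norm_num)
    have h1 := hy 0 (by simp)
    simp only [smul_zero, add_zero] at h1
    -- the increments along the segment
    have h2 : ∀ R : ℕ, J T (trunc 0 (R : ℝ) b) (y + s • e i) - J T (trunc 0 (R : ℝ) b) y ≤ 1 / 2 * s := by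
      intro R
      have hlip : IsLip (J T (trunc 0 (R : ℝ) b)) := UT_isLip 0 T.symm (hbR R)
      have hlk : LK 1 (J T (trunc 0 (R : ℝ) b)) := UT_LK 0 T.symm (LK_trunc 0 hb1 (R : ℝ))
      have h3 := pd_ftc hlip (e i) y 0 s
      rw [zero_smul, add_zero] at h3
      rw [← h3]
      refine le_trans ?_ h1
      apply intervalIntegral.integral_mono_on hs0.le (pd_int hlip _ _ _ _)
      · rw [intervalIntegrable_iff]
        apply Measure.integrableOn_of_bounded (M := 1)
        · rw [uIoc, Real.volume_Ioc]; exact ENNReal.ofReal_ne_top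
        · have : Measurable (fun t : ℝ => Pᶜ.indicator (fun _ => (1 : ℝ)) (y + t • e i)) :=
            (measurable_const.indicator hPm.compl).comp (line_cont (e i) y).measurable
          exact this.aestronglyMeasurable
        · filter_upwards with τ
          rw [Real.norm_eq_abs, abs_of_nonneg (indicator_nonneg (fun _ _ => zero_le_one) _)]
          exact indicator_le_self' (fun _ _ => zero_le_one) _
      · intro τ _
        by_cases hτ : y + τ • e i ∈ P
        · have : pd (e i) (J T (trunc 0 (R : ℝ) b)) (y + τ • e i) = 0 := hτ R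
          rw [this]
          exact indicator_nonneg (fun _ _ => zero_le_one) _
        · rw [indicator_of_mem (show y + τ • e i ∈ Pᶜ from hτ)]
          have := pd_bound zero_le_one hlk (e i) (y + τ • e i)
          rw [norm_e, mul_one] at this
          exact (le_abs_self _).trans this
    -- the limit
    have h4 : ∀ z, Tendsto (fun R : ℕ => J T (trunc 0 (R : ℝ) b) z) atTop (𝓝 (J T b z)) := by
      apply UT_tendsto 0 T.symm (K := 1) (fun R => LK_trunc 0 hb1 (R : ℝ))
      intro p q
      have key : ∀ z : X d, ∀ᶠ R : ℕ in atTop, trunc 0 (R : ℝ) b z = b z := by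
        intro z
        obtain ⟨N, hN⟩ := exists_nat_ge (dist z 0)
        filter_upwards [eventually_ge_atTop N] with n hn
        have hn' : (N : ℝ) ≤ n := by exact_mod_cast hn
        exact trunc_eq hb1 hb0 (hN.trans hn')
      apply tendsto_const_nhds.congr'
      filter_upwards [key p, key q] with n h5 h6
      rw [h5, h6]
    have h5 : ∀ z, J T b z = z i := by
      intro z
      have := UT_symm 0 T (isLip_cd i) z
      have e0 : cd i (0 : X d) = 0 := rfl
      rw [e0, sub_zero] at this
      exact this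
    have h6 := le_of_tendsto' ((h4 (y + s • e i)).sub (h4 y)) h2
    rw [h5, h5, seg_same] at h6
    linarith
  -- differentiability
  have hdiff : ∀ᵐ x ∂(mu d), ∀ G ∈ 𝒢, LineDifferentiableAt ℝ (J T G) x (e i) := by
    rw [ae_ball_iff hcount]
    intro G hG
    obtain ⟨K, hK0, hK⟩ := UT_isLip 0 T.symm (h𝒢lip G hG)
    exact hK.lipschitz.ae_lineDifferentiableAt (e i)
  have hleb : ∀ᵐ x ∂(mu d), ∀ G ∈ 𝒢, Leb (J T G) x := by
    rw [ae_ball_iff hcount]
    intro G hG
    exact ae_Leb (UT_isLip 0 T.symm (h𝒢lip G hG))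
  filter_upwards [hPnull, hdiff, hleb] with x hx1 hx2 hx3
  by_contra hcon
  push Not at hcon
  apply hx1
  intro R
  have h1 : ∀ F ∈ Submodule.span ℝ (t R : Set (X d → ℝ)), IsLip F ∧ HasLineDerivAt ℝ (J T F) 0 x (e i) := by
    intro F hF
    induction hF using Submodule.span_induction with
    | mem G hG =>
      have hG' : G ∈ 𝒢 := mem_iUnion.2 ⟨R, hG⟩
      obtain ⟨hlip, a, ha⟩ := ht1 R hG
      refine ⟨hlip, ?_⟩
      have h2 : pd (e i) (J T G) x = 0 := hcon a G hlip ha (hx3 G hG')
      have h3 := (hx2 G hG').hasLineDerivAt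
      have h4 : lineDeriv ℝ (J T G) x (e i) = 0 := h2
      rwa [h4] at h3
    | zero =>
      refine ⟨isLip_const 0, ?_⟩
      have : J T (0 : X d → ℝ) = fun _ => 0 := by
        funext z
        have := UT_smul 0 T.symm (isLip_const (M := X d) 0) 0 z
        simp only [mul_zero, zero_mul] at this
        exact this
      rw [this]
      exact hasDerivAt_const _ _
    | add F G _ _ hF hG =>
      refine ⟨hF.1.add hG.1, ?_⟩
      have e1 : J T (F + G) = fun z => J T F z + J T G z := by
        funext z
        exact UT_add 0 T.symm hF.1 hG.1 z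
      rw [e1]
      have := HasDerivAt.add hF.2 hG.2
      rw [add_zero] at this
      exact this
    | smul c F _ hF =>
      refine ⟨hF.1.const_mul c, ?_⟩
      have e1 : J T (c • F) = fun z => c * J T F z := by
        funext z
        exact UT_smul 0 T.symm hF.1 c z
      rw [e1]
      have := HasDerivAt.const_mul c hF.2
      rw [mul_zero] at this
      exact this
  exact (h1 _ (ht2 R)).2.lineDeriv

end Pool.Agent.K9h46.LO
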