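import Mathlib
import Pool.Agent.K9h46.LO.NV

set_option autoImplicit false
set_option linter.unusedSectionVars false
set_option linter.unusedVariables false

open MeasureTheory Set Filter Topology

namespace Pool.Agent.K9h46.LO

open Pool.Agent.Helper23K9.LR

variable {d : ℕ}

/-- `(a, r)` is a localisation of the direction `e i` at `x`. -/
def Good (T : FreeSpace (X d) ≃ₗᵢ[ℝ] FreeSpace (X d)) (x : X d) (i : Fin d) (r : ℝ) (a : X d) (G₀ : X d → ℝ) : Prop :=
  IsLip G₀ ∧ (∀ x, r < dist x a → G₀ x = 0) ∧ Leb (J T G₀) x ∧ pd (e i) (J T G₀) x ≠ 0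

lemma osc_meas {g : X d → ℝ} (hg : IsLip g) (v : X d) (D : ℝ) : Measurable (fun y => |pd v g y - D|) :=
  (continuous_abs.measurable.comp ((pd_meas hg v).sub_const D))

lemma osc_bd {g : X d → ℝ} {K : ℝ} (hK0 : 0 ≤ K) (hg : LK K g) (i : Fin d) (D : ℝ) (y : X d) :
    |pd (e i) g y - D| ≤ K + |D| := by
  have h1 := pd_bound hK0 hg (e i) y
  rw [norm_e, mul_one] at h1
  exact (abs_sub _ _).trans (by linarith)

theorem F0 {T : FreeSpace (X d) ≃ₗᵢ[ℝ] FreeSpace (X d)} {x a : X d} {r : ℝ} (hr : 0 < r) {i : Fin d} {G₀ : X d → ℝ}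
    (hgood : Good T x i r a G₀) {G : X d → ℝ} (hG : IsLip G) (hLG : Leb (J T G) x) {ε : ℝ} (hε : 0 ≤ ε)
    (hc : ∀ y z, dist y a ≤ 4 * r → dist z a ≤ 4 * r → |G y - G z| ≤ ε * dist y z) :
    |pd (e i) (J T G) x| ≤ ε := by
  obtain ⟨hG₀, h0, hL₀, hD⟩ := hgood
  set D := pd (e i) (J T G₀) x with hDdef
  set D' := pd (e i) (J T G) x with hD'def
  have hD0 : 0 < |D| := abs_pos.2 hD
  obtain ⟨L, hL0, hL⟩ := hG
  have hG : IsLip G := ⟨L, hL0, hL⟩
  have hJG : IsLip (J T G) := UT_isLip 0 T.symm hG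
  obtain ⟨L₀, hL₀0, hL₀K⟩ := hG₀
  have hG₀ : IsLip G₀ := ⟨L₀, hL₀0, hL₀K⟩
  have hJG₀ : IsLip (J T G₀) := UT_isLip 0 T.symm hG₀
  have key : ∀ η : ℝ, 0 < η → |D'| ≤ ε + ((L + ε) / |D| + 1) * η := by
    intro η hη
    obtain ⟨s, hs0, y, hy⟩ := good_pos (d := d) (Finset.univ : Finset (Fin 2))
      (u := fun k => if k = 0 then (fun y => |pd (e i) (J T G₀) y - D|) else (fun y => |pd (e i) (J T G) y - D'|))
      (w := fun _ => 0) (v := fun _ => e i) (C := max (L₀ + |D|) (L + |D'|)) (x₀ := x)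
      (fun k => by
        split_ifs
        · exact osc_meas hJG₀ _ _
        · exact osc_meas hJG _ _)
      (fun k y => by
        split_ifs
        · exact abs_nonneg _
        · exact abs_nonneg _)
      (fun k y => by
        split_ifs
        · exact (osc_bd hL₀0 (UT_LK 0 T.symm hL₀K) i D y).trans (le_max_left _ _)
        · exact (osc_bd hL0 (UT_LK 0 T.symm hL) i D' y).trans (le_max_right _ _))
      (fun _ => by simp) (fun _ => by rw [norm_e])
      (fun k => by
        split_ifs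
        · exact hL₀ i
        · exact hLG i) hη
    have h1 := hy 0 (Finset.mem_univ _)
    have h2 := hy 1 (Finset.mem_univ _)
    simp only [smul_zero, add_zero, if_true] at h1
    simp only [smul_zero, add_zero, one_ne_zero, if_false] at h2
    have h3 := local_est' T (q := y) hr hs0 hG₀ h0 hD h1 hL0 hε hL hc
    have h4 := pd_ftc hJG (e i) y 0 s
    rw [zero_smul, add_zero] at h4
    have h5 : ∫ τ in (0 : ℝ)..s, (pd (e i) (J T G) (y + τ • e i) - D') =
        (J T G (y + s • e i) - J T G y) - D' * s := by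
      rw [intervalIntegral.integral_sub (pd_int hJG _ _ _ _) intervalIntegrable_const, h4]
      rw [intervalIntegral.integral_const, smul_eq_mul]
      ring
    have h6 : |∫ τ in (0 : ℝ)..s, (pd (e i) (J T G) (y + τ • e i) - D')| ≤ η * s :=
      (intervalIntegral.abs_integral_le_integral_abs hs0.le).trans h2
    rw [h5] at h6
    have h7 : |D'| * s ≤ (ε + ((L + ε) / |D| + 1) * η) * s := by
      calc |D'| * s = |D' * s| := by rw [abs_mul, abs_of_pos hs0]
        _ = |(J T G (y + s • e i) - J T G y) - ((J T G (y + s • e i) - J T G y) - D' * s)| := by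
            congr 1; ring
        _ ≤ |J T G (y + s • e i) - J T G y| + |(J T G (y + s • e i) - J T G y) - D' * s| := abs_sub _ _
        _ ≤ (ε * s + (L + ε) * (η * s / |D|)) + η * s := add_le_add h3 h6
        _ = _ := by ring
    exact le_of_mul_le_mul_right h7 hs0
  apply le_of_forall_pos_le_add
  intro δ hδ
  set c := (L + ε) / |D| + 1 with hcdef
  have hc0 : 0 < c := by positivity
  have := key (δ / c) (by positivity)
  rwa [mul_div_cancel₀ _ hc0.ne'] at this

theorem coinc {T : FreeSpace (X d) ≃ₗᵢ[ℝ] FreeSpace (X d)} {x a a' : X d} {r : ℝ} (hr : 0 < r) {i j : Fin d}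
    (hij : i ≠ j) {G₀ G₀' : X d → ℝ} (hgood : Good T x i r a G₀) (hgood' : Good T x j r a' G₀') :
    dist a a' ≤ 12 * r := by
  by_contra hcon
  push Not at hcon
  obtain ⟨hG₀, h0, hL₀, hD⟩ := hgood
  obtain ⟨hG₀', h0', hL₀', hD'⟩ := hgood'
  set D := pd (e i) (J T G₀) x with hDdef
  set D' := pd (e j) (J T G₀') x with hD'def
  have hD0 : 0 < |D| := abs_pos.2 hD
  have hD0' : 0 < |D'| := abs_pos.2 hD'
  obtain ⟨L₀, hL₀0, hL₀K⟩ := hG₀
  have hG₀ : IsLip G₀ := ⟨L₀, hL₀0, hL₀K⟩
  have hJG₀ : IsLip (J T G₀) := UT_isLip 0 T.symm hG₀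
  obtain ⟨L₀', hL₀0', hL₀K'⟩ := hG₀'
  have hG₀' : IsLip G₀' := ⟨L₀', hL₀0', hL₀K'⟩
  have hJG₀' : IsLip (J T G₀') := UT_isLip 0 T.symm hG₀'
  set η := min |D| |D'| / 4 with hη
  have hη0 : 0 < η := by
    have := lt_min hD0 hD0'
    positivity
  obtain ⟨s, hs0, y, hy⟩ := good_pos (d := d) (Finset.univ : Finset (Bool × Bool))
    (u := fun k => if k.1 then (fun y => |pd (e i) (J T G₀) y - D|) else (fun y => |pd (e j) (J T G₀') y - D'|))
    (w := fun k => if k.2 then 0 else (if k.1 then e j else e i))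
    (v := fun k => if k.1 then e i else e j) (C := max (L₀ + |D|) (L₀' + |D'|)) (x₀ := x)
    (fun k => by
      split_ifs
      · exact osc_meas hJG₀ _ _
      · exact osc_meas hJG₀' _ _)
    (fun k y => by
      split_ifs
      · exact abs_nonneg _
      · exact abs_nonneg _)
    (fun k y => by
      split_ifs
      · exact (osc_bd hL₀0 (UT_LK 0 T.symm hL₀K) i D y).trans (le_max_left _ _)
      · exact (osc_bd hL₀0' (UT_LK 0 T.symm hL₀K') j D' y).trans (le_max_right _ _))
    (fun k => by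
      split_ifs
      · simp
      · rw [norm_e]
      · rw [norm_e])
    (fun k => by
      split_ifs
      · rw [norm_e]
      · rw [norm_e])
    (fun k => by
      split_ifs
      · exact hL₀ i
      · exact hL₀' j) hη0
  have b1 := hy (true, true) (Finset.mem_univ _)
  have b2 := hy (true, false) (Finset.mem_univ _)
  have b3 := hy (false, true) (Finset.mem_univ _)
  have b4 := hy (false, false) (Finset.mem_univ _)
  simp only [if_true, smul_zero, add_zero] at b1
  simp only [if_true, Bool.false_eq_true, if_false] at b2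
  simp only [if_true, Bool.false_eq_true, if_false, smul_zero, add_zero] at b3
  simp only [Bool.false_eq_true, if_false] at b4
  -- the corners
  set BR := y + s • e i with hBR
  set TL := y + s • e j with hTL
  set TR := y + s • e j + s • e i with hTR
  have hTR' : BR + s • e j = TR := by rw [hBR, hTR]; abel
  -- the test function
  set g : X d → ℝ := fun z => min (dist z y) (dist z TR) with hg
  have hg1 : LK 1 g := (LK_dist y).min (LK_dist TR)
  have dseg0 : ∀ (q : X d) (k : Fin d), dist (q + s • e k) q = s := by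
    intro q k
    have := dist_seg q s 0 k
    rw [zero_smul, add_zero, sub_zero, abs_of_pos hs0] at this
    exact this
  have g1 : g y = 0 := by
    simp only [hg]; rw [dist_self]; exact min_eq_left dist_nonneg
  have g2 : g TR = 0 := by
    simp only [hg]; rw [dist_self]; exact min_eq_right dist_nonneg
  have g3 : g BR = s := by
    simp only [hg]
    rw [hBR, dseg0, ← hBR, dist_comm BR TR, ← hTR', dseg0, min_self]
  have g4 : g TL = s := by
    simp only [hg]
    rw [hTL, dseg0, ← hTL, dist_comm TL TR]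
    have : TR = TL + s • e i := rfl
    rw [this, dseg0, min_self]
  set G := U T g with hGdef
  have hG1 : LK 1 G := UT_LK 0 T hg1
  have hGJ : ∀ z, J T G z = g z - g 0 := fun z => UT_symm 0 T (LK.isLip hg1) z
  set F₁ : X d → ℝ := fun z => G z - G a with hF₁
  have hF₁1 : LK 1 F₁ := by
    intro p q
    have := hG1 p q
    simp only [hF₁]
    linarith
  set Gs := trunc a (4 * r) F₁ with hGs
  have hGs1 : LK 1 Gs := LK_trunc a hF₁1 _
  have hGs_eq : ∀ z, dist z a ≤ 4 * r → Gs z = G z - G a := fun z hz =>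
    trunc_eq hF₁1 (by simp only [hF₁]; ring) hz
  have hGs_zero : ∀ z, dist z a' ≤ 4 * r → Gs z = 0 := by
    intro z hz
    apply trunc_zero
    have := dist_triangle a z a'
    rw [dist_comm a z] at this
    linarith
  -- horizontal sides
  have hdiff2 : LK (1 + 1) (fun z => G z - Gs z) := LK.sub hG1 hGs1
  have hdc : ∀ p q : X d, dist p a ≤ 4 * r → dist q a ≤ 4 * r →
      |(fun z => G z - Gs z) p - (fun z => G z - Gs z) q| ≤ 0 * dist p q := by
    intro p q hp hq
    beta_reduce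
    rw [hGs_eq p hp, hGs_eq q hq, zero_mul]
    apply le_of_eq
    rw [abs_eq_zero]; ring
  have hdc' : ∀ p q : X d, dist p a' ≤ 4 * r → dist q a' ≤ 4 * r → |Gs p - Gs q| ≤ 0 * dist p q := by
    intro p q hp hq
    rw [hGs_zero p hp, hGs_zero q hq, zero_mul]
    simp
  have c1 := local_est' T (q := y) hr hs0 hG₀ h0 hD b1 (by norm_num) le_rfl hdiff2 hdc
  have c2 := local_est' T (q := TL) hr hs0 hG₀ h0 hD b2 (by norm_num) le_rfl hdiff2 hdc
  have c3 := local_est' T (q := y) hr hs0 hG₀' h0' hD' b3 zero_le_one le_rfl hGs1 hdc'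
  have c4 := local_est' T (q := BR) hr hs0 hG₀' h0' hD' b4 zero_le_one le_rfl hGs1 hdc'
  have hsub : ∀ z, J T (fun z => G z - Gs z) z = (g z - g 0) - J T Gs z := by
    intro z
    rw [← hGJ]
    exact UT_sub 0 T.symm (LK.isLip hG1) (LK.isLip hGs1) z
  rw [hsub, hsub, ← hBR, g3, g1] at c1
  rw [hsub, hsub, ← hTR, g2, g4] at c2
  rw [← hTL] at c3
  rw [hTR'] at c4
  have m1 : η / |D| ≤ 1 / 4 := by
    rw [div_le_div_iff₀ hD0 (by norm_num), hη]
    have := min_le_left |D| |D'|
    linarith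
  have m2 : η / |D'| ≤ 1 / 4 := by
    rw [div_le_div_iff₀ hD0' (by norm_num), hη]
    have := min_le_right |D| |D'|
    linarith
  have m3 : η * s / |D| ≤ 1 / 4 * s := by
    have e1 : η * s / |D| = η / |D| * s := by ring
    rw [e1]
    exact mul_le_mul_of_nonneg_right m1 hs0.le
  have m4 : η * s / |D'| ≤ 1 / 4 * s := by
    have e1 : η * s / |D'| = η / |D'| * s := by ring
    rw [e1]
    exact mul_le_mul_of_nonneg_right m2 hs0.le
  rw [abs_le] at c1 c2 c3 c4
  have c1' := c1.2
  have c2' := c2.1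
  have c3' := c3.2
  have c4' := c4.1
  linarith

/-- the localisation point -/
theorem exists_Z (T : FreeSpace (X d) ≃ₗᵢ[ℝ] FreeSpace (X d)) (i₀ : Fin d) : ∀ᵐ x ∂(mu d), ∃ Z : X d,
    ∀ (i : Fin d) (G : X d → ℝ), IsLip G → Leb (J T G) x → ∀ ε : ℝ, 0 ≤ ε →
      (∃ ρ : ℝ, 0 < ρ ∧ ∀ y z, dist y Z ≤ ρ → dist z Z ≤ ρ → |G y - G z| ≤ ε * dist y z) →
      |pd (e i) (J T G) x| ≤ ε := by
  have h1 : ∀ᵐ x ∂(mu d), ∀ (i : Fin d) (n : ℕ), ∃ (a : X d) (G₀ : X d → ℝ), Good T x i (1 / ((n : ℝ) + 1)) a G₀ := by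
    rw [ae_all_iff]
    intro i
    rw [ae_all_iff]
    intro n
    exact nonvanish T i (by positivity)
  filter_upwards [h1] with x hx
  choose a G₀ hgood using hx
  have hr : ∀ n : ℕ, (0 : ℝ) < 1 / ((n : ℝ) + 1) := fun n => by positivity
  -- Cauchy
  have hF1 : ∀ n m : ℕ, dist (a i₀ n) (a i₀ m) ≤ 4 * (1 / ((n : ℝ) + 1)) + 1 / ((m : ℝ) + 1) := by
    intro n m
    by_contra hcon
    push Not at hcon
    obtain ⟨k1, k2, k3, k4⟩ := hgood i₀ m
    have h2 := F0 (hr n) (hgood i₀ n) k1 k3 le_rfl (by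
      intro y z hy hz
      have e1 : ∀ w, dist w (a i₀ n) ≤ 4 * (1 / ((n : ℝ) + 1)) → G₀ i₀ m w = 0 := by
        intro w hw
        apply k2
        have := dist_triangle (a i₀ n) w (a i₀ m)
        rw [dist_comm (a i₀ n) w] at this
        linarith
      rw [e1 y hy, e1 z hz]
      simp)
    exact k4 (abs_eq_zero.1 (le_antisymm h2 (abs_nonneg _)))
  have hlim0 : Tendsto (fun n : ℕ => 1 / ((n : ℝ) + 1)) atTop (𝓝 0) := tendsto_one_div_add_atTop_nhds_zero_nat
  have hcau : CauchySeq (a i₀) := by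
    apply cauchySeq_of_le_tendsto_0 (fun n : ℕ => 5 * (1 / ((n : ℝ) + 1)))
    · intro n m N hn hm
      have h2 := hF1 n m
      have h3 : 1 / ((n : ℝ) + 1) ≤ 1 / ((N : ℝ) + 1) := by
        apply one_div_le_one_div_of_le (by positivity)
        have : (N : ℝ) ≤ n := by exact_mod_cast hn
        linarith
      have h4 : 1 / ((m : ℝ) + 1) ≤ 1 / ((N : ℝ) + 1) := by
        apply one_div_le_one_div_of_le (by positivity)
        have : (N : ℝ) ≤ m := by exact_mod_cast hm
        linarith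
      linarith
    · have := hlim0.const_mul 5
      rwa [mul_zero] at this
  obtain ⟨Z, hZ⟩ := cauchySeq_tendsto_of_complete hcau
  have hZ0 : Tendsto (fun n => dist (a i₀ n) Z) atTop (𝓝 0) := tendsto_iff_dist_tendsto_zero.1 hZ
  refine ⟨Z, ?_⟩
  intro i G hG hLG ε hε ⟨ρ, hρ, hGρ⟩
  have hcl : ∀ n, dist (a i n) (a i₀ n) ≤ 12 * (1 / ((n : ℝ) + 1)) := by
    intro n
    by_cases hi : i = i₀
    · rw [hi, dist_self]; have := hr n; linarith
    · exact coinc (hr n) hi (hgood i n) (hgood i₀ n)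
  have h3 : Tendsto (fun n : ℕ => dist (a i₀ n) Z + 16 * (1 / ((n : ℝ) + 1))) atTop (𝓝 0) := by
    have := hZ0.add (hlim0.const_mul 16)
    rwa [mul_zero, add_zero] at this
  obtain ⟨n, hn⟩ := (h3.eventually (ge_mem_nhds hρ)).exists
  apply F0 (hr n) (hgood i n) hG hLG hε
  intro y z hy hz
  apply hGρ
  · have k1 := dist_triangle y (a i n) Z
    have k2 := dist_triangle (a i n) (a i₀ n) Z
    have := hcl n
    linarith
  · have k1 := dist_triangle z (a i n) Z
    have k2 := dist_triangle (a i n) (a i₀ n) Z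
    have := hcl n
    linarith

end Pool.Agent.K9h46.LO
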