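import Mathlib
import Pool.Agent.K9h46.LO.Pt

set_option autoImplicit false
set_option linter.unusedSectionVars false
set_option linter.unusedVariables false

open MeasureTheory Set Filter Topology

namespace Pool.Agent.K9h46.LO

open Pool.Agent.Helper23K9.LR

variable {d : ℕ}

/-- the map with the coordinates `U x_i` -/
noncomputable def bm (T : FreeSpace (X d) ≃ₗᵢ[ℝ] FreeSpace (X d)) (z : X d) : X d :=
  WithLp.toLp 1 (fun i => U T (cd i) z)

lemma bm_apply (T : FreeSpace (X d) ≃ₗᵢ[ℝ] FreeSpace (X d)) (z : X d) (i : Fin d) : (bm T z) i = U T (cd i) z := rfl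

lemma dist_bm (T : FreeSpace (X d) ≃ₗᵢ[ℝ] FreeSpace (X d)) (y z : X d) :
    dist (bm T y) (bm T z) ≤ d * dist y z := by
  rw [dist_X (bm T y)]
  calc ∑ i, |bm T y i - bm T z i| ≤ ∑ i : Fin d, dist y z := by
        apply Finset.sum_le_sum
        intro i _
        rw [bm_apply, bm_apply]
        have := (UT_LK 0 T (LK_cd i)).abs y z
        rwa [one_mul] at this
    _ = d * dist y z := by simp

lemma bm_cont (T : FreeSpace (X d) ≃ₗᵢ[ℝ] FreeSpace (X d)) : Continuous (bm T) := by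
  have : LipschitzWith (d : NNReal) (bm T) := LipschitzWith.of_dist_le_mul (fun y z => by simpa using dist_bm T y z)
  exact this.continuous

lemma vec_expand (v : X d) : v = ∑ j, v j • e j := by
  conv_lhs => rw [← (PiLp.basisFun 1 ℝ (Fin d)).sum_repr v]
  apply Finset.sum_congr rfl
  intro j _
  rw [PiLp.basisFun_repr, PiLp.basisFun_apply]
  rfl

lemma clm_expand (ℓ : X d →L[ℝ] ℝ) (v : X d) : ℓ v = ∑ j, v j * ℓ (e j) := by
  conv_lhs => rw [vec_expand v]
  rw [map_sum]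
  apply Finset.sum_congr rfl
  intro j _
  rw [map_smul, smul_eq_mul]

lemma comp_lip (T : FreeSpace (X d) ≃ₗᵢ[ℝ] FreeSpace (X d)) {f : X d → ℝ} (hf : IsLip f) :
    IsLip (fun z => f (bm T z)) := by
  obtain ⟨K, hK0, hK⟩ := hf
  refine ⟨K * d, by positivity, fun y z => ?_⟩
  have h1 := hK (bm T y) (bm T z)
  have h2 := mul_le_mul_of_nonneg_left (dist_bm T y z) hK0
  calc f (bm T y) - f (bm T z) ≤ K * dist (bm T y) (bm T z) := h1
    _ ≤ K * (d * dist y z) := h2
    _ = _ := by ring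

lemma LK_clm (ℓ : X d →L[ℝ] ℝ) : LK ‖ℓ‖ (fun z => ℓ z) := by
  intro y z
  rw [← map_sub, dist_eq_norm]
  exact (le_abs_self _).trans (ℓ.le_opNorm _)

lemma isLip_clm (ℓ : X d →L[ℝ] ℝ) : IsLip (fun z => ℓ z) := ⟨‖ℓ‖, norm_nonneg _, LK_clm ℓ⟩

lemma J_clm (T : FreeSpace (X d) ≃ₗᵢ[ℝ] FreeSpace (X d)) (ℓ : X d →L[ℝ] ℝ) (z : X d) :
    J T (fun z => ℓ (bm T z)) z = ℓ z := by
  have e1 : (fun z => ℓ (bm T z)) = fun z => ∑ j, ℓ (e j) * U T (cd j) z := by
    funext z
    rw [clm_expand ℓ (bm T z)]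
    apply Finset.sum_congr rfl
    intro j _
    rw [bm_apply, mul_comm]
  rw [e1]
  have hl : ∀ j : Fin d, IsLip (U T (cd j)) := fun j => UT_isLip 0 T (isLip_cd j)
  have e2 := UT_sum 0 T.symm Finset.univ (F := fun j z => ℓ (e j) * U T (cd j) z) (fun j => (hl j).const_mul _) z
  have e3 : J T (fun z => ∑ j, ℓ (e j) * U T (cd j) z) z =
      ∑ j, UT 0 T.symm (fun z => ℓ (e j) * U T (cd j) z) z := e2
  rw [e3, clm_expand ℓ z]
  apply Finset.sum_congr rfl
  intro j _
  rw [UT_smul 0 T.symm (hl j)]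
  have e4 : UT 0 T.symm (U T (cd j)) z = cd j z - cd j 0 := UT_symm 0 T (isLip_cd j) z
  have e5 : cd j (0 : X d) = 0 := rfl
  rw [e4, e5, sub_zero, mul_comm]
  rfl

/-- `Z` is the localisation point of `x` -/
def LocPt (T : FreeSpace (X d) ≃ₗᵢ[ℝ] FreeSpace (X d)) (x Z : X d) : Prop :=
  ∀ (i : Fin d) (G : X d → ℝ), IsLip G → Leb (J T G) x → ∀ ε : ℝ, 0 ≤ ε →
      (∃ ρ : ℝ, 0 < ρ ∧ ∀ y z, dist y Z ≤ ρ → dist z Z ≤ ρ → |G y - G z| ≤ ε * dist y z) →
      |pd (e i) (J T G) x| ≤ ε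

/-- `Y` gives the values of the derivatives. -/
def ValMap (T : FreeSpace (X d) ≃ₗᵢ[ℝ] FreeSpace (X d)) (Y : X d → X d) : Prop :=
  ∀ (f : X d → ℝ) (f' : X d → (X d →L[ℝ] ℝ)), IsLip f → (∀ z, HasStrictFDerivAt f (f' z) z) →
    ∀ v, ∀ᵐ x ∂(mu d), pd v (J T (fun z => f (bm T z))) x = f' (Y x) v

theorem values (T : FreeSpace (X d) ≃ₗᵢ[ℝ] FreeSpace (X d)) (i₀ : Fin d) : ∃ Y : X d → X d, ValMap T Y := by
  classical
  obtain ⟨Z, hZ⟩ : ∃ Z : X d → X d, ∀ᵐ x ∂(mu d), LocPt T x (Z x) := by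
    refine ⟨fun x => if h : ∃ Z, LocPt T x Z then h.choose else 0, ?_⟩
    filter_upwards [exists_Z T i₀] with x hx
    have hx' : ∃ Z, LocPt T x Z := hx
    rw [dif_pos hx']
    exact hx'.choose_spec
  refine ⟨fun x => bm T (Z x), ?_⟩
  intro f f' hf hf' v
  have hfb := comp_lip T hf
  set h := J T (fun z => f (bm T z)) with hh
  have hhl : IsLip h := UT_isLip 0 T.symm hfb
  have hdiff : ∀ᵐ x ∂(mu d), DifferentiableAt ℝ h x := by
    obtain ⟨K, hK0, hK⟩ := hhl
    exact hK.lipschitz.ae_differentiableAt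
  filter_upwards [hZ, hdiff, ae_Leb hhl] with x hx hdx hLx
  set ℓ := f' (bm T (Z x)) with hℓ
  set G : X d → ℝ := fun z => f (bm T z) - ℓ (bm T z) with hG
  have hℓb : IsLip (fun z => ℓ (bm T z)) := comp_lip T (isLip_clm ℓ)
  have hGl : IsLip G := hfb.sub hℓb
  have hJG : J T G = fun z => h z - ℓ z := by
    funext z
    have : J T G z = h z - J T (fun z => ℓ (bm T z)) z := UT_sub 0 T.symm hfb hℓb z
    rw [this, J_clm]
  have hpd : ∀ y, DifferentiableAt ℝ h y → ∀ w, pd w (J T G) y = pd w h y - ℓ w := by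
    intro y hy w
    rw [hJG]
    have k1 := (hy.hasFDerivAt).hasLineDerivAt w
    have k2 := (ℓ.hasFDerivAt (x := y)).hasLineDerivAt w
    have k3 : HasLineDerivAt ℝ (fun z => h z - ℓ z) (fderiv ℝ h y w - ℓ w) y w := HasDerivAt.sub k1 k2
    unfold pd
    rw [k3.lineDeriv, k1.lineDeriv]
  have hLG : Leb (J T G) x := by
    intro i
    have := hLx i
    refine this.congr (fun ρ => ?_)
    apply average_congr
    apply ae_restrict_of_ae
    filter_upwards [hdiff] with y hy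
    rw [hpd y hy, hpd x hdx]
    congr 1
    ring
  have key : ∀ i : Fin d, pd (e i) h x = ℓ (e i) := by
    intro i
    have h1 : ∀ ε : ℝ, 0 < ε → |pd (e i) (J T G) x| ≤ ε := by
      intro ε hε
      apply hx i G hGl hLG ε hε.le
      have h2 := ((hf' (bm T (Z x))).isLittleO).def (show 0 < ε / (d + 1) by positivity)
      obtain ⟨ρ', hρ', h3⟩ := Metric.eventually_nhds_iff.1 h2
      refine ⟨ρ' / (2 * (d + 1)), by positivity, fun y z hy hz => ?_⟩
      have hb : ∀ w, dist w (Z x) ≤ ρ' / (2 * (d + 1)) → dist (bm T w) (bm T (Z x)) < ρ' := by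
        intro w hw
        refine (dist_bm T w (Z x)).trans_lt ?_
        calc (d : ℝ) * dist w (Z x) ≤ d * (ρ' / (2 * (d + 1))) := mul_le_mul_of_nonneg_left hw (Nat.cast_nonneg _)
          _ = ρ' / 2 * (d / (d + 1)) := by field_simp
          _ ≤ ρ' / 2 * 1 := by
              apply mul_le_mul_of_nonneg_left _ (by positivity)
              rw [div_le_one (by positivity)]; linarith
          _ < ρ' := by linarith
      have h4 := @h3 (bm T y, bm T z) (by
        rw [Prod.dist_eq]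
        exact max_lt (hb y hy) (hb z hz))
      simp only at h4
      have e1 : G y - G z = f (bm T y) - f (bm T z) - ℓ (bm T y - bm T z) := by
        simp only [hG]
        rw [map_sub]; ring
      rw [e1]
      rw [Real.norm_eq_abs, ← dist_eq_norm] at h4
      refine h4.trans ?_
      calc ε / (d + 1) * dist (bm T y) (bm T z) ≤ ε / (d + 1) * (d * dist y z) :=
            mul_le_mul_of_nonneg_left (dist_bm T y z) (by positivity)
        _ = (d / (d + 1)) * (ε * dist y z) := by ring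
        _ ≤ 1 * (ε * dist y z) := by
            apply mul_le_mul_of_nonneg_right _ (by positivity)
            rw [div_le_one (by positivity)]; linarith
        _ = _ := one_mul _
    have h2 : |pd (e i) (J T G) x| ≤ 0 := le_of_forall_pos_le_add (fun ε hε => by rw [zero_add]; exact h1 ε hε)
    have h3 : pd (e i) (J T G) x = 0 := abs_eq_zero.1 (le_antisymm h2 (abs_nonneg _))
    rw [hpd x hdx] at h3
    linarith
  have hv : ∀ w, pd w h x = fderiv ℝ h x w := fun w => hdx.lineDeriv_eq_fderiv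
  rw [hv, clm_expand (fderiv ℝ h x) v, clm_expand ℓ v]
  apply Finset.sum_congr rfl
  intro j _
  rw [← hv, key]

/-- a Lipschitz function with zero derivative in the direction `v` is constant in this direction -/
theorem zero_deriv {g : X d → ℝ} (hg : IsLip g) {v : X d} (h : ∀ᵐ x ∂(mu d), pd v g x = 0) (x : X d) (t : ℝ) :
    g (x + t • v) = g x := by
  have h1 : ∀ τ : ℝ, ∀ᵐ y ∂(mu d), pd v g (y + τ • v) = 0 := by
    intro τ
    have h0 := (measurePreserving_add_right (mu d) (τ • v)).quasiMeasurePreserving.ae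
      (p := fun x => pd v g x = 0) h
    exact h0
  have hms : MeasurableSet {p : ℝ × X d | pd v g (p.2 + p.1 • v) = 0} := by
    apply measurableSet_eq_fun _ measurable_const
    apply (pd_meas hg v).comp
    have : Continuous (fun p : ℝ × X d => p.2 + p.1 • v) := by fun_prop
    exact this.measurable
  have h2 := (Measure.ae_ae_comm (μ := (volume : Measure ℝ)) (ν := mu d)
    (p := fun τ y => pd v g (y + τ • v) = 0) hms).1 (Eventually.of_forall h1)
  have h3 : ∀ᵐ y ∂(mu d), g (y + t • v) = g y := by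
    filter_upwards [h2] with y hy
    have h4 := pd_ftc hg v y 0 t
    rw [zero_smul, add_zero] at h4
    have h5 : ∫ τ in (0 : ℝ)..t, pd v g (y + τ • v) = ∫ τ in (0 : ℝ)..t, (0 : ℝ) := by
      apply intervalIntegral.integral_congr_ae
      filter_upwards [hy] with τ hτ _
      exact hτ
    rw [h5, intervalIntegral.integral_zero] at h4
    linarith
  have h4 : Dense {y | g (y + t • v) = g y} := Measure.dense_of_ae h3
  have h5 : IsClosed {y | g (y + t • v) = g y} :=
    isClosed_eq (hg.continuous.comp (by fun_prop)) hg.continuous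
  have h6 : x ∈ closure {y | g (y + t • v) = g y} := h4 x
  rw [h5.closure_eq] at h6
  exact h6

/-- the antiderivative -/
noncomputable def anti (θ : ℝ → ℝ) (u : ℝ) : ℝ := ∫ t in (0 : ℝ)..u, θ t

lemma anti_strict {θ : ℝ → ℝ} (hθ : Continuous θ) (u : ℝ) : HasStrictDerivAt (anti θ) (θ u) u :=
  Continuous.integral_hasStrictDerivAt hθ 0 u

lemma anti_LK {θ : ℝ → ℝ} (hθ : Continuous θ) {C : ℝ} (hC : ∀ t, |θ t| ≤ C) : LK C (anti θ) :=
  LK_of_deriv (fun s => (anti_strict hθ s).hasDerivAt) hC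

lemma anti_clm_lip {θ : ℝ → ℝ} (hθ : Continuous θ) {C : ℝ} (hC : ∀ t, |θ t| ≤ C) (ℓ : X d →L[ℝ] ℝ) :
    IsLip (fun z => anti θ (ℓ z)) := by
  have hC0 : 0 ≤ C := (abs_nonneg _).trans (hC 0)
  exact LK.isLip (Rel.LK.comp_real hC0 (anti_LK hθ hC) (LK_clm ℓ))

theorem ridge_val {T : FreeSpace (X d) ≃ₗᵢ[ℝ] FreeSpace (X d)} {Y : X d → X d} (hY : ValMap T Y) {θ : ℝ → ℝ}
    (hθ : Continuous θ) {C : ℝ} (hC : ∀ t, |θ t| ≤ C) (ℓ : X d →L[ℝ] ℝ) (v : X d) :
    ∀ᵐ x ∂(mu d), pd v (J T (fun z => anti θ (ℓ (bm T z)))) x = θ (ℓ (Y x)) * ℓ v := by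
  have h1 := hY (fun z => anti θ (ℓ z)) (fun z => θ (ℓ z) • ℓ) (anti_clm_lip hθ hC ℓ) (fun z =>
    (anti_strict hθ (ℓ z)).comp_hasStrictFDerivAt z ℓ.hasStrictFDerivAt) v
  filter_upwards [h1] with x hx
  rw [hx]
  rfl

/-- the preimages of ridge functions are ridge functions -/
theorem ridge_fun {T : FreeSpace (X d) ≃ₗᵢ[ℝ] FreeSpace (X d)} {Y : X d → X d} (hY : ValMap T Y) {θ : ℝ → ℝ}
    (hθ : Continuous θ) {C : ℝ} (hC : ∀ t, |θ t| ≤ C) (ℓ : X d →L[ℝ] ℝ) {w : X d} (hw : ℓ w = 1) :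
    ∃ H : ℝ → ℝ, ∀ᵐ x ∂(mu d), θ (ℓ (Y x)) = deriv H (ℓ x) := by
  set g := J T (fun z => anti θ (ℓ (bm T z))) with hg
  have hgl : IsLip g := UT_isLip 0 T.symm (comp_lip T (anti_clm_lip hθ hC ℓ))
  have hinv : ∀ x y, ℓ x = ℓ y → g x = g y := by
    intro x y hxy
    have h1 : ∀ᵐ z ∂(mu d), pd (x - y) g z = 0 := by
      filter_upwards [ridge_val hY hθ hC ℓ (x - y)] with z hz
      rw [hz, map_sub, hxy, sub_self, mul_zero]
    have h2 := zero_deriv hgl h1 y 1
    rwa [one_smul, add_sub_cancel] at h2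
  refine ⟨fun u => g (u • w), ?_⟩
  filter_upwards [ridge_val hY hθ hC ℓ w] with x hx
  rw [hw, mul_one] at hx
  rw [← hx]
  have h1 : (fun t : ℝ => g (x + t • w)) = fun t => (fun u => g (u • w)) (ℓ x + t) := by
    funext t
    apply hinv
    rw [map_add, map_smul, map_smul, hw]
    simp
  have h2 := deriv_comp_const_add (f := fun u : ℝ => g (u • w)) (ℓ x) 0
  rw [add_zero] at h2
  rw [← h2]
  show deriv (fun t : ℝ => g (x + t • w)) 0 = _
  rw [h1]

end Pool.Agent.K9h46.LO
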