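import Mathlib
import Pool.Agent.K9h46.LO.Val

set_option autoImplicit false
set_option linter.unusedSectionVars false
set_option linter.unusedVariables false

open MeasureTheory Set Filter Topology

namespace Pool.Agent.K9h46.LO

open Pool.Agent.Helper23K9.LR

variable {d : ℕ}

/-- the coordinate functional -/
noncomputable def cl (i : Fin d) : X d →L[ℝ] ℝ := PiLp.proj 1 (fun _ => ℝ) i

lemma cl_apply (i : Fin d) (x : X d) : cl i x = x i := rfl

lemma cl_same (i : Fin d) : cl i (e i : X d) = 1 := e_same i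

lemma cl_ne {i j : Fin d} (h : i ≠ j) : cl i (e j : X d) = 0 := e_ne h

lemma measurable_tan : Measurable Real.tan := by
  have : Real.tan = fun x => Real.sin x / Real.cos x := by
    funext x
    exact Real.tan_eq_sin_div_cos x
  rw [this]
  exact Real.measurable_sin.div Real.measurable_cos

lemma abs_arctan_le (t : ℝ) : |Real.arctan t| ≤ Real.pi / 2 := by
  rw [abs_le]
  exact ⟨(Real.neg_pi_div_two_lt_arctan t).le, (Real.arctan_lt_pi_div_two t).le⟩

lemma exists_h {T : FreeSpace (X d) ≃ₗᵢ[ℝ] FreeSpace (X d)} {Y : X d → X d} (hY : ValMap T Y)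
    (ℓ : X d →L[ℝ] ℝ) {w : X d} (hw : ℓ w = 1) :
    ∃ h : ℝ → ℝ, Measurable h ∧ ∀ᵐ x ∂(mu d), ℓ (Y x) = h (ℓ x) := by
  obtain ⟨H, hH⟩ := ridge_fun hY Real.continuous_arctan abs_arctan_le ℓ hw
  refine ⟨fun u => Real.tan (deriv H u), measurable_tan.comp (measurable_deriv H), ?_⟩
  filter_upwards [hH] with x hx
  rw [← hx, Real.tan_arctan]

lemma pair_affine {T : FreeSpace (X d) ≃ₗᵢ[ℝ] FreeSpace (X d)} {Y : X d → X d} (hY : ValMap T Y)
    {h : Fin d → ℝ → ℝ} (hm : ∀ i, Measurable (h i)) (hh : ∀ i, ∀ᵐ x ∂(mu d), cl i (Y x) = h i (cl i x))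
    {i j : Fin d} (hij : i ≠ j) :
    ∃ κ c c' : ℝ, (∀ᵐ u, h i u = κ * u + c) ∧ (∀ᵐ u, h j u = κ * u + c') := by
  obtain ⟨k, hkm, hk⟩ := exists_h hY (cl i + cl j) (w := e i) (by
    rw [ContinuousLinearMap.add_apply, cl_same, cl_ne hij.symm, add_zero])
  set L : X d →ₗ[ℝ] (ℝ × ℝ) := ((cl i : X d →L[ℝ] ℝ) : X d →ₗ[ℝ] ℝ).prod ((cl j : X d →L[ℝ] ℝ) : X d →ₗ[ℝ] ℝ) with hL
  have hsurj : Function.Surjective L := by
    rintro ⟨u, w⟩
    refine ⟨u • e i + w • e j, ?_⟩
    show (cl i (u • e i + w • e j), cl j (u • e i + w • e j)) = (u, w)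
    rw [map_add, map_add, map_smul, map_smul, map_smul, map_smul, cl_same, cl_same, cl_ne hij, cl_ne hij.symm]
    simp
  set s : Set (ℝ × ℝ) := {p | k (p.1 + p.2) = h i p.1 + h j p.2} with hs
  have hsm : MeasurableSet s :=
    measurableSet_eq_fun (hkm.comp (measurable_fst.add measurable_snd))
      (((hm i).comp measurable_fst).add ((hm j).comp measurable_snd))
  have h1 : ∀ᵐ x ∂(mu d), L x ∈ s := by
    filter_upwards [hk, hh i, hh j] with x h1 h2 h3
    show k (cl i x + cl j x) = h i (cl i x) + h j (cl j x)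
    rw [← h2, ← h3]
    exact h1.symm
  have h2 := (ae_comp_linearMap_mem_iff L (mu d) (volume : Measure (ℝ × ℝ)) hsurj hsm).1 h1
  have h3 : ∀ᵐ u : ℝ, ∀ᵐ w : ℝ, k (u + w) = h i u + h j w :=
    Measure.ae_ae_of_ae_prod (p := fun p : ℝ × ℝ => k (p.1 + p.2) = h i p.1 + h j p.2) h2
  have h4 : ∀ᵐ w : ℝ, ∀ᵐ u : ℝ, k (u + w) = h i u + h j w :=
    (Measure.ae_ae_comm (μ := (volume : Measure ℝ)) (ν := (volume : Measure ℝ))
      (p := fun u w => k (u + w) = h i u + h j w) hsm).1 h3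
  obtain ⟨κ, c, c', k1, k2, -⟩ := pexider (h i) (h j) k (hm j) hkm h4 h3
  exact ⟨κ, c, c', k1, k2⟩

lemma slope_unique {f : ℝ → ℝ} {κ κ' c c' : ℝ} (h1 : ∀ᵐ u, f u = κ * u + c) (h2 : ∀ᵐ u, f u = κ' * u + c') :
    κ = κ' := by
  have h3 : Dense {u : ℝ | κ * u + c = κ' * u + c'} := by
    apply Measure.dense_of_ae (μ := (volume : Measure ℝ))
    filter_upwards [h1, h2] with u a b
    rw [← a, ← b]
  have h4 : IsClosed {u : ℝ | κ * u + c = κ' * u + c'} := isClosed_eq (by fun_prop) (by fun_prop)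
  have h5 : ∀ u : ℝ, κ * u + c = κ' * u + c' := by
    intro u
    have : u ∈ closure {u : ℝ | κ * u + c = κ' * u + c'} := h3 u
    rwa [h4.closure_eq] at this
  have := h5 0
  have := h5 1
  linarith

theorem exists_affine {T : FreeSpace (X d) ≃ₗᵢ[ℝ] FreeSpace (X d)} (hd : 2 ≤ d) {Y : X d → X d} (hY : ValMap T Y) :
    ∃ (κ : ℝ) (c : X d), ∀ᵐ x ∂(mu d), Y x = κ • x + c := by
  have h1 : ∀ i : Fin d, ∃ h : ℝ → ℝ, Measurable h ∧ ∀ᵐ x ∂(mu d), cl i (Y x) = h (cl i x) := fun i =>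
    exists_h hY (cl i) (cl_same i)
  choose h hm hh using h1
  obtain ⟨κ, c₀, c₁, k0, k1⟩ := pair_affine hY hm hh (i := ⟨0, by omega⟩) (j := ⟨1, by omega⟩) (by
    intro hcon
    have := congrArg Fin.val hcon
    simp at this)
  have h2 : ∀ i : Fin d, ∃ c : ℝ, ∀ᵐ u, h i u = κ * u + c := by
    intro i
    by_cases hi : (⟨0, by omega⟩ : Fin d) = i
    · rw [← hi]; exact ⟨c₀, k0⟩
    · obtain ⟨κ', c, c', k2, k3⟩ := pair_affine hY hm hh hi
      have := slope_unique k0 k2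
      rw [this]
      exact ⟨c', k3⟩
  choose c hc using h2
  refine ⟨κ, WithLp.toLp 1 c, ?_⟩
  have h3 : ∀ i : Fin d, ∀ᵐ x ∂(mu d), h i (cl i x) = κ * cl i x + c i := by
    intro i
    have hsurj : Function.Surjective ((cl i : X d →L[ℝ] ℝ) : X d →ₗ[ℝ] ℝ) := by
      intro u
      refine ⟨u • e i, ?_⟩
      show cl i (u • e i) = u
      rw [map_smul, cl_same, smul_eq_mul, mul_one]
    have hms : MeasurableSet {u : ℝ | h i u = κ * u + c i} :=
      measurableSet_eq_fun (hm i) ((measurable_const.mul measurable_id).add_const _)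
    exact (ae_comp_linearMap_mem_iff ((cl i : X d →L[ℝ] ℝ) : X d →ₗ[ℝ] ℝ) (mu d) (volume : Measure ℝ) hsurj hms).2 (hc i)
  have h4 : ∀ᵐ x ∂(mu d), ∀ i : Fin d, cl i (Y x) = h i (cl i x) := ae_all_iff.2 hh
  have h5 : ∀ᵐ x ∂(mu d), ∀ i : Fin d, h i (cl i x) = κ * cl i x + c i := ae_all_iff.2 h3
  filter_upwards [h4, h5] with x a b
  ext i
  show cl i (Y x) = κ * cl i x + c i
  rw [a, b]

/-- the antiderivative of a positive function is injective -/
lemma anti_inj {c₀ : ℝ} {u v : ℝ} (h : anti (fun t => min |t - c₀| 1) u = anti (fun t => min |t - c₀| 1) v) : u = v := by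
  have hcont : Continuous (fun t : ℝ => min |t - c₀| 1) := by fun_prop
  have key : ∀ a b : ℝ, a < b → anti (fun t => min |t - c₀| 1) a < anti (fun t => min |t - c₀| 1) b := by
    intro a b hab
    have h1 : 0 < ∫ t in a..b, min |t - c₀| 1 := by
      apply intervalIntegral.integral_pos hab hcont.continuousOn
      · intro x _
        exact le_min (abs_nonneg _) zero_le_one
      · by_cases ha : a = c₀
        · refine ⟨b, right_mem_Icc.2 hab.le, lt_min (abs_pos.2 ?_) one_pos⟩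
          intro hcon
          linarith
        · refine ⟨a, left_mem_Icc.2 hab.le, lt_min (abs_pos.2 ?_) one_pos⟩
          intro hcon
          apply ha
          linarith
    have h2 : anti (fun t => min |t - c₀| 1) b - anti (fun t => min |t - c₀| 1) a = ∫ t in a..b, min |t - c₀| 1 :=
      intervalIntegral.integral_interval_sub_left (hcont.intervalIntegrable _ _) (hcont.intervalIntegrable _ _)
    linarith
  rcases lt_trichotomy u v with h1 | h1 | h1
  · have := key u v h1; linarith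
  · exact h1
  · have := key v u h1; linarith

lemma UT_of_const (T : FreeSpace (X d) ≃ₗᵢ[ℝ] FreeSpace (X d)) {g : X d → ℝ} (h : ∀ x y, g x = g y) (z : X d) :
    UT 0 T g z = 0 := by
  have h1 : LK 0 g := fun x y => by rw [h x y]; simp
  have h2 := (UT_LK 0 T h1).abs z 0
  rw [zero_mul, UT_zero, sub_zero] at h2
  exact abs_eq_zero.1 (le_antisymm h2 (abs_nonneg _))

theorem kappa_ne {T : FreeSpace (X d) ≃ₗᵢ[ℝ] FreeSpace (X d)} (i₀ : Fin d) {Y : X d → X d} (hY : ValMap T Y)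
    {κ : ℝ} {c : X d} (h : ∀ᵐ x ∂(mu d), Y x = κ • x + c) : κ ≠ 0 := by
  intro hκ
  subst hκ
  set c₀ := cl i₀ c with hc₀
  have hθ : Continuous (fun t : ℝ => min |t - c₀| 1) := by fun_prop
  have hC : ∀ t : ℝ, |(fun t : ℝ => min |t - c₀| 1) t| ≤ 1 := by
    intro t
    beta_reduce
    rw [abs_of_nonneg (le_min (abs_nonneg _) zero_le_one)]
    exact min_le_right _ _
  set F : X d → ℝ := fun z => anti (fun t => min |t - c₀| 1) (cl i₀ (bm T z)) with hF
  have hFl : IsLip F := comp_lip T (anti_clm_lip hθ hC (cl i₀))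
  have hJl : IsLip (J T F) := UT_isLip 0 T.symm hFl
  have h1 : ∀ x y, J T F x = J T F y := by
    intro x y
    have h2 : ∀ᵐ z ∂(mu d), pd (x - y) (J T F) z = 0 := by
      filter_upwards [ridge_val hY hθ hC (cl i₀) (x - y), h] with z hz hz2
      rw [hz, hz2, zero_smul, zero_add, ← hc₀]
      simp
    have h3 := zero_deriv hJl h2 y 1
    rwa [one_smul, add_sub_cancel] at h3
  have h2 : ∀ z, F z = F 0 := by
    intro z
    have h3 : UT 0 T (UT 0 T.symm F) z = F z - F 0 := UT_symm' 0 T hFl z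
    have h4 : UT 0 T (UT 0 T.symm F) z = 0 := UT_of_const T h1 z
    linarith
  have h3 : ∀ z, U T (cd i₀) z = U T (cd i₀) 0 := fun z => anti_inj (h2 z)
  have h4 : UT 0 T.symm (U T (cd i₀)) (e i₀) = 0 :=
    UT_of_const T.symm (fun x y => by rw [h3 x, h3 y]) _
  have h5 : UT 0 T.symm (U T (cd i₀)) (e i₀) = cd i₀ (e i₀) - cd i₀ 0 := UT_symm 0 T (isLip_cd i₀) _
  have h6 : cd i₀ (e i₀ : X d) = 1 := e_same i₀
  have h7 : cd i₀ (0 : X d) = 0 := rfl
  rw [h4, h6, h7] at h5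
  norm_num at h5

/-- the formula for the strictly differentiable functions -/
theorem formula {T : FreeSpace (X d) ≃ₗᵢ[ℝ] FreeSpace (X d)} {Y : X d → X d} (hY : ValMap T Y)
    {κ : ℝ} (hκ : κ ≠ 0) {c : X d} (h : ∀ᵐ x ∂(mu d), Y x = κ • x + c) {f : X d → ℝ} {f' : X d → (X d →L[ℝ] ℝ)}
    (hf : IsLip f) (hf' : ∀ z, HasStrictFDerivAt f (f' z) z) (x : X d) :
    J T (fun z => f (bm T z)) x = κ⁻¹ * (f (κ • x + c) - f c) := by
  set g := J T (fun z => f (bm T z)) with hg
  have hgl : IsLip g := UT_isLip 0 T.symm (comp_lip T hf)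
  have hFl : IsLip (fun x => κ⁻¹ * f (κ • x + c)) := by
    obtain ⟨K, hK0, hK⟩ := hf
    have : IsLip (fun x => f (κ • x + c)) := by
      refine ⟨K * |κ|, by positivity, fun y z => ?_⟩
      have h1 := hK (κ • y + c) (κ • z + c)
      rw [dist_add_right, dist_smul₀, Real.norm_eq_abs] at h1
      calc f (κ • y + c) - f (κ • z + c) ≤ K * (|κ| * dist y z) := h1
        _ = _ := by ring
    exact this.const_mul _
  have hder : ∀ y v : X d, HasLineDerivAt ℝ (fun x => κ⁻¹ * f (κ • x + c)) (f' (κ • y + c) v) y v := by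
    intro y v
    have h1 : HasDerivAt (fun t : ℝ => κ • (y + t • v) + c) (κ • v) 0 := by
      have h2 : HasDerivAt (fun t : ℝ => t • v) ((1 : ℝ) • v) 0 := (hasDerivAt_id (0 : ℝ)).smul_const v
      rw [one_smul] at h2
      exact ((h2.const_add y).const_smul κ).add_const c
    have h3 : HasFDerivAt f (f' (κ • y + c)) (κ • (y + (0 : ℝ) • v) + c) := by
      rw [zero_smul, add_zero]
      exact (hf' _).hasFDerivAt
    have h4 := (h3.comp_hasDerivAt (0 : ℝ) h1).const_mul κ⁻¹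
    have e1 : κ⁻¹ * (f' (κ • y + c)) (κ • v) = f' (κ • y + c) v := by
      rw [map_smul, smul_eq_mul, ← mul_assoc, inv_mul_cancel₀ hκ, one_mul]
    rw [e1] at h4
    exact h4
  have hzero : ∀ v : X d, ∀ᵐ y ∂(mu d), pd v (fun x => g x - κ⁻¹ * f (κ • x + c)) y = 0 := by
    intro v
    have hld : ∀ᵐ y ∂(mu d), LineDifferentiableAt ℝ g y v := by
      obtain ⟨K, hK0, hK⟩ := hgl
      exact hK.lipschitz.ae_lineDifferentiableAt v
    filter_upwards [hld, hY f f' hf hf' v, h] with y h1 h2 h3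
    have h4 : HasLineDerivAt ℝ (fun x => g x - κ⁻¹ * f (κ • x + c)) (lineDeriv ℝ g y v - f' (κ • y + c) v) y v :=
      HasDerivAt.sub h1.hasLineDerivAt (hder y v)
    unfold pd
    rw [h4.lineDeriv]
    have h5 : lineDeriv ℝ g y v = f' (Y y) v := h2
    rw [h5, h3, sub_self]
  have h1 := zero_deriv (hgl.sub hFl) (hzero x) 0 1
  simp only [one_smul, zero_add, smul_zero] at h1
  have h2 : g 0 = 0 := UT_zero 0 T.symm _
  rw [h2] at h1
  linarith

end Pool.Agent.K9h46.LO
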