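import Mathlib
import Pool.Agent.K9h46.LO.Afn

set_option autoImplicit false
set_option linter.unusedSectionVars false
set_option linter.unusedVariables false

open MeasureTheory Set Filter Topology
open scoped ContDiff

namespace Pool.Agent.K9h46.LO

open Pool.Agent.Helper23K9.LR

variable {d : ℕ}

/-- a class of Lipschitz functions which is closed for bounded pointwise limits and contains the test functions
contains all Lipschitz functions -/
theorem dense_lip {Q : (X d → ℝ) → Prop} (hsm : ∀ f : X d → ℝ, ContDiff ℝ ∞ f → HasCompactSupport f → Q f)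
    (hseq : ∀ (f : ℕ → X d → ℝ) (f0 : X d → ℝ) (K : ℝ), 0 ≤ K → (∀ n, Q (f n)) → (∀ n, LK K (f n)) →
      (∀ x, Tendsto (fun n => f n x) atTop (𝓝 (f0 x))) → Q f0) {f : X d → ℝ} (hf : IsLip f) : Q f := by
  -- compactly supported functions
  have hcomp : ∀ (f : X d → ℝ) (K : ℝ), 0 ≤ K → LK K f → HasCompactSupport f → Q f := by
    intro f K hK0 hf hc
    set φ : ℕ → ContDiffBump (0 : X d) := fun n =>
      { rIn := 1 / (2 * ((n : ℝ) + 1))
        rOut := 1 / ((n : ℝ) + 1)
        rIn_pos := by positivity
        rIn_lt_rOut := by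
          apply one_div_lt_one_div_of_lt (by positivity)
          have : (0 : ℝ) ≤ n := Nat.cast_nonneg n
          linarith } with hφ
    have hr : Tendsto (fun n => (φ n).rOut) atTop (𝓝 0) := tendsto_one_div_add_atTop_nhds_zero_nat
    have hcont := hf.continuous
    have hex : ∀ n x, ConvolutionExistsAt ((φ n).normed (mu d)) f x (ContinuousLinearMap.lsmul ℝ ℝ) (mu d) := by
      intro n x
      apply HasCompactSupport.convolutionExists_left_of_continuous_right
      · exact (φ n).hasCompactSupport_normed
      · exact (φ n).continuous_normed.locallyIntegrable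
      · exact hcont
    apply hseq (fun n => MeasureTheory.convolution ((φ n).normed (mu d)) f (ContinuousLinearMap.lsmul ℝ ℝ) (mu d)) f K hK0
    · intro n
      apply hsm
      · exact (φ n).hasCompactSupport_normed.contDiff_convolution_left _ (φ n).contDiff_normed
          hcont.locallyIntegrable
      · exact HasCompactSupport.convolution _ (φ n).hasCompactSupport_normed hc
    · intro n x y
      have i1 : ∀ z, Integrable (fun t => (φ n).normed (mu d) t • f (z - t)) (mu d) := fun z => hex n z
      rw [convolution_lsmul, convolution_lsmul, ← integral_sub (i1 x) (i1 y)]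
      calc ∫ t, ((φ n).normed (mu d) t • f (x - t) - (φ n).normed (mu d) t • f (y - t)) ∂(mu d)
          ≤ ∫ t, (φ n).normed (mu d) t * (K * dist x y) ∂(mu d) := by
            apply integral_mono ((i1 x).sub (i1 y)) ((φ n).integrable_normed.mul_const _)
            intro t
            have h1 := hf (x - t) (y - t)
            rw [dist_sub_right] at h1
            show (φ n).normed (mu d) t * f (x - t) - (φ n).normed (mu d) t * f (y - t) ≤ _
            rw [← mul_sub]
            exact mul_le_mul_of_nonneg_left h1 ((φ n).nonneg_normed t)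
        _ = K * dist x y := by
            rw [integral_mul_const, (φ n).integral_normed, one_mul]
    · intro x
      exact ContDiffBump.convolution_tendsto_right_of_continuous hr hcont x
  obtain ⟨K, hK0, hK⟩ := hf
  -- the truncations
  set h : ℕ → X d → ℝ := fun n x => max (|f 0| + 2 * K * n - K * ‖x‖) 0 with hh
  have hL1 : ∀ n, LK K (h n) := by
    intro n
    have e1 : LK K (fun x : X d => |f 0| + 2 * K * n - K * ‖x‖) := by
      intro x y
      have h2 : ‖y‖ - ‖x‖ ≤ dist x y := by
        rw [dist_eq_norm, ← norm_neg (x - y), neg_sub]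
        exact norm_sub_norm_le y x
      have h3 := mul_le_mul_of_nonneg_left h2 hK0
      linarith
    have e2 : LK K (fun _ : X d => (0 : ℝ)) := fun x y => by
      have : 0 ≤ K * dist x y := mul_nonneg hK0 dist_nonneg
      linarith
    exact e1.max e2
  rcases hK0.eq_or_lt with hK00 | hKpos
  · -- constant functions
    have hconst : ∀ x, f x = f 0 := by
      intro x
      have := hK.abs x 0
      rw [← hK00, zero_mul] at this
      exact sub_eq_zero.1 (abs_eq_zero.1 (le_antisymm this (abs_nonneg _)))
    -- approximate by tents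
    set g : ℕ → X d → ℝ := fun n x => f 0 * max (1 - ‖x‖ / ((n : ℝ) + 1)) 0 with hg
    have hgL : ∀ n, LK (|f 0|) (g n) := by
      intro n
      have h1 : LK 1 (fun x : X d => max (1 - ‖x‖ / ((n : ℝ) + 1)) 0) := by
        have e1 : LK 1 (fun x : X d => 1 - ‖x‖ / ((n : ℝ) + 1)) := by
          intro x y
          have h2 : ‖y‖ - ‖x‖ ≤ dist x y := by
            rw [dist_eq_norm, ← norm_neg (x - y), neg_sub]
            exact norm_sub_norm_le y x
          have e2 : 1 - ‖x‖ / ((n : ℝ) + 1) - (1 - ‖y‖ / ((n : ℝ) + 1)) = (‖y‖ - ‖x‖) / ((n : ℝ) + 1) := by ring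
          beta_reduce
          rw [e2, one_mul, div_le_iff₀ (by positivity)]
          have h3 : (0 : ℝ) ≤ n := Nat.cast_nonneg n
          have h4 : 0 ≤ dist x y * n := by positivity
          linarith
        have e2 : LK 1 (fun _ : X d => (0 : ℝ)) := fun x y => by
          rw [sub_self, one_mul]; exact dist_nonneg
        exact e1.max e2
      have := h1.const_mul (f 0)
      rwa [mul_one] at this
    apply hseq g f _ (abs_nonneg (f 0))
    · intro n
      apply hcomp _ _ (abs_nonneg (f 0)) (hgL n)
      apply HasCompactSupport.of_support_subset_isCompact (isCompact_closedBall (0 : X d) ((n : ℝ) + 1))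
      intro x hx
      rw [mem_closedBall_zero_iff]
      by_contra hcon
      push Not at hcon
      apply hx
      have h2 : max (1 - ‖x‖ / ((n : ℝ) + 1)) 0 = 0 := by
        apply max_eq_right
        have : 1 ≤ ‖x‖ / ((n : ℝ) + 1) := by
          rw [le_div_iff₀ (by positivity)]; linarith
        linarith
      simp only [hg]
      rw [h2, mul_zero]
    · exact hgL
    · intro x
      rw [hconst x]
      have h1 : Tendsto (fun n : ℕ => ‖x‖ / ((n : ℝ) + 1)) atTop (𝓝 0) := by
        have := (tendsto_one_div_add_atTop_nhds_zero_nat (𝕜 := ℝ)).const_mul ‖x‖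
        rw [mul_zero] at this
        refine this.congr (fun n => ?_)
        ring
      have h2 : Tendsto (fun n : ℕ => f 0 * max (1 - ‖x‖ / ((n : ℝ) + 1)) 0) atTop (𝓝 (f 0 * max (1 - 0) 0)) :=
        ((h1.const_sub 1).max tendsto_const_nhds).const_mul (f 0)
      rw [sub_zero, max_eq_left zero_le_one, mul_one] at h2
      exact h2
  · apply hseq (fun n x => max (min (f x) (h n x)) (- h n x)) f K hK0
    · intro n
      apply hcomp _ K hK0 ((hK.min (hL1 n)).max (hL1 n).neg)
      apply HasCompactSupport.of_support_subset_isCompact (isCompact_closedBall (0 : X d) (|f 0| / K + 2 * n))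
      intro x hx
      rw [mem_closedBall_zero_iff]
      by_contra hcon
      push Not at hcon
      apply hx
      have h2 : h n x = 0 := by
        rw [hh]
        simp only
        apply max_eq_right
        have h3 := mul_lt_mul_of_pos_left hcon hKpos
        have h4 : K * (|f 0| / K + 2 * n) = |f 0| + 2 * K * n := by field_simp
        linarith
      beta_reduce
      rw [h2, neg_zero]
      exact max_eq_right (min_le_right _ _)
    · intro n
      exact (hK.min (hL1 n)).max (hL1 n).neg
    · intro z
      apply tendsto_const_nhds.congr'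
      obtain ⟨N, hN⟩ := exists_nat_ge ‖z‖
      filter_upwards [eventually_ge_atTop N] with n hn
      have hn' : (N : ℝ) ≤ n := by exact_mod_cast hn
      have h2 : |f z| ≤ |f 0| + K * ‖z‖ := by
        have h5 := hK.abs z 0
        rw [dist_zero_right] at h5
        have h6 := abs_add_le (f z - f 0) (f 0)
        rw [sub_add_cancel] at h6
        linarith
      have h3 : |f z| ≤ h n z := by
        rw [hh]
        simp only
        refine le_trans ?_ (le_max_left _ _)
        have h7 : K * ‖z‖ ≤ K * n := mul_le_mul_of_nonneg_left (hN.trans hn') hK0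
        linarith
      rw [abs_le] at h3
      rw [min_eq_left h3.2, max_eq_left h3.1]

/-- the formula for all Lipschitz functions -/
theorem formula_all {T : FreeSpace (X d) ≃ₗᵢ[ℝ] FreeSpace (X d)} {Y : X d → X d} (hY : ValMap T Y)
    {κ : ℝ} (hκ : κ ≠ 0) {c : X d} (h : ∀ᵐ x ∂(mu d), Y x = κ • x + c) {f : X d → ℝ}
    (hf : IsLip f) (x : X d) :
    J T (fun z => f (bm T z)) x = κ⁻¹ * (f (κ • x + c) - f c) := by
  revert x
  apply dense_lip (Q := fun f => ∀ x, J T (fun z => f (bm T z)) x = κ⁻¹ * (f (κ • x + c) - f c)) ?_ ?_ hf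
  · intro f hf hc
    have hlip : IsLip f := by
      obtain ⟨C, hC⟩ := hf.lipschitzWith_of_hasCompactSupport hc (by simp)
      refine ⟨C, C.2, fun x y => ?_⟩
      have := hC.dist_le_mul x y
      rw [Real.dist_eq] at this
      exact (le_abs_self _).trans this
    exact formula hY hκ h hlip (f' := fun z => fderiv ℝ f z) (fun z => hf.contDiffAt.hasStrictFDerivAt (by simp))
  · intro f f0 K hK0 hQ hK hlim x
    have h1 : Tendsto (fun n => J T (fun z => f n (bm T z)) x) atTop (𝓝 (J T (fun z => f0 (bm T z)) x)) := by
      apply UT_tendsto 0 T.symm (K := K * d)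
      · intro n y z
        have h1 := hK n (bm T y) (bm T z)
        have h2 := mul_le_mul_of_nonneg_left (dist_bm T y z) hK0
        calc f n (bm T y) - f n (bm T z) ≤ K * dist (bm T y) (bm T z) := h1
          _ ≤ K * (d * dist y z) := h2
          _ = _ := by ring
      · intro p q
        exact (hlim _).sub (hlim _)
    have h2 : Tendsto (fun n => κ⁻¹ * (f n (κ • x + c) - f n c)) atTop (𝓝 (κ⁻¹ * (f0 (κ • x + c) - f0 c))) :=
      ((hlim _).sub (hlim _)).const_mul _
    have h3 : (fun n => J T (fun z => f n (bm T z)) x) = fun n => κ⁻¹ * (f n (κ • x + c) - f n c) :=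
      funext fun n => hQ n x
    rw [h3] at h1
    exact tendsto_nhds_unique h1 h2

/-- `ℝ^d` with the Manhattan distance is Lipschitz-free rigid for `d ≥ 2`. -/
theorem manhattan_rigid (hd : 2 ≤ d) : LipFreeRigid (X d) := by
  apply rigid_of_psi
  · intro p
    refine ⟨p + e ⟨0, by omega⟩, fun h2 => ?_⟩
    have h3 : (e ⟨0, by omega⟩ : X d) = 0 := by
      have : p + 0 = p + e ⟨0, by omega⟩ := by rw [add_zero]; exact h2
      exact (add_left_cancel this).symm
    have h4 := norm_e (d := d) ⟨0, by omega⟩
    rw [h3, norm_zero] at h4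
    exact zero_ne_one h4
  · intro T
    obtain ⟨Y, hY⟩ := values T ⟨0, by omega⟩
    obtain ⟨κ, c, hYc⟩ := exists_affine hd hY
    have hκ := kappa_ne ⟨0, by omega⟩ hY hYc
    refine ⟨κ, fun p => κ⁻¹ • (bm T p - c), hκ, fun p q => ?_⟩
    rw [← sub_eq_zero]
    apply eq_zero_of_fn
    intro f K hK
    have hfl : IsLip f := LK.isLip hK
    rw [map_sub, map_smul, fn_mol hK, smul_eq_mul]
    -- the auxiliary function
    set F : X d → ℝ := fun y => κ * f (κ⁻¹ • (y - c)) with hF
    have hFl : IsLip F := by
      obtain ⟨K, hK0, hK⟩ := hfl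
      have : IsLip (fun y => f (κ⁻¹ • (y - c))) := by
        refine ⟨K * |κ⁻¹|, by positivity, fun y z => ?_⟩
        have h1 := hK (κ⁻¹ • (y - c)) (κ⁻¹ • (z - c))
        rw [dist_smul₀, dist_sub_right, Real.norm_eq_abs] at h1
        calc f (κ⁻¹ • (y - c)) - f (κ⁻¹ • (z - c)) ≤ K * (|κ⁻¹| * dist y z) := h1
          _ = _ := by ring
      exact this.const_mul _
    have h1 : ∀ x, J T (fun z => F (bm T z)) x = f x - f 0 := by
      intro x
      rw [formula_all hY hκ hYc hFl x]
      simp only [hF]
      have e1 : κ⁻¹ • (κ • x + c - c) = x := by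
        rw [add_sub_cancel_right, smul_smul, inv_mul_cancel₀ hκ, one_smul]
      rw [e1, sub_self, smul_zero, ← mul_sub, ← mul_assoc, inv_mul_cancel₀ hκ, one_mul]
    have hFb : IsLip (fun z => F (bm T z)) := comp_lip T hFl
    have h2 : ∀ z, UT 0 T (UT 0 T.symm (fun z => F (bm T z))) z = F (bm T z) - F (bm T 0) := fun z =>
      UT_symm' 0 T hFb z
    have h3 : UT 0 T (UT 0 T.symm (fun z => F (bm T z))) = UT 0 T f := by
      apply UT_congr 0 T (UT_isLip 0 T.symm hFb) hfl
      intro x y
      have a1 : UT 0 T.symm (fun z => F (bm T z)) x = f x - f 0 := h1 x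
      have a2 : UT 0 T.symm (fun z => F (bm T z)) y = f y - f 0 := h1 y
      rw [a1, a2]; ring
    rw [h3] at h2
    rw [← UT_diff 0 T f p q, h2, h2]
    simp only [hF]
    ring

end Pool.Agent.K9h46.LO
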